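import Mathlib

/-!
# The curvature polynomial is negative

Purely computational file: the polynomial `G N M` (a positive multiple of the numerator of the
Gaussian curvature, with `N = n ^ 2`, `M = m ^ 2`) is negative on the hexagon
`|n| + |m| ≤ 1`, `5 |m| ≤ 1 + 2 n ^ 2`.
-/

noncomputable section

namespace Pool.Agent.H97.NegCurv

/-- coefficient of `M ^ 0` in the curvature polynomial -/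
def g0 (N : ℝ) : ℝ := (-3870) + 34096 * N + (-134509) * N ^ 2 + 230502 * N ^ 3 + (-103271) * N ^ 4 + (-123208) * N ^ 5 + 61728 * N ^ 6 + 40960 * N ^ 7 + (-28672) * N ^ 8

/-- coefficient of `M ^ 1` in the curvature polynomial -/
def g1 (N : ℝ) : ℝ := (-24750) + (-631680) * N + 1503023 * N ^ 2 + (-1771876) * N ^ 3 + 2705627 * N ^ 4 + (-2173424) * N ^ 5 + 710848 * N ^ 6 + 71680 * N ^ 7

/-- coefficient of `M ^ 2` in the curvature polynomial -/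
def g2 (N : ℝ) : ℝ := (-903480) + 4788624 * N + (-5252803) * N ^ 2 + 3639606 * N ^ 3 + 1760928 * N ^ 4 + (-2516336) * N ^ 5 + 24000 * N ^ 6

/-- coefficient of `M ^ 3` in the curvature polynomial -/
def g3 (N : ℝ) : ℝ := 3115140 + (-4486000) * N + (-688175) * N ^ 2 + 3007200 * N ^ 3 + 3679700 * N ^ 4 + (-264320) * N ^ 5

/-- coefficient of `M ^ 4` in the curvature polynomial -/
def g4 (N : ℝ) : ℝ := (-3618990) + (-3668640) * N + (-4545780) * N ^ 2 + (-2704120) * N ^ 3 + 479600 * N ^ 4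

/-- coefficient of `M ^ 5` in the curvature polynomial -/
def g5 (N : ℝ) : ℝ := 1653450 + 3783600 * N + 720500 * N ^ 2 + (-280800) * N ^ 3

/-- coefficient of `M ^ 6` in the curvature polynomial -/
def g6 (N : ℝ) : ℝ := (-217500) + 180000 * N + 30000 * N ^ 2

/-- the curvature polynomial in `N = n ^ 2`, `M = m ^ 2` -/
def G (N M : ℝ) : ℝ :=
  g0 N + g1 N * M + g2 N * M ^ 2 + g3 N * M ^ 3 + g4 N * M ^ 4 + g5 N * M ^ 5 + g6 N * M ^ 6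

theorem bA0 (N : ℝ) (h0 : 0 ≤ N) (h1 : 0 ≤ 4 - 9 * N) :
    g0 N + 50 ≤ 0 := by
  have key : g0 N + 50
      = -((955/16384 : ℝ) * (4 - 9 * N) ^ 8 + (4333/2048 : ℝ) * N ^ 1 * (4 - 9 * N) ^ 7 + (69491/2048 : ℝ) * N ^ 2 * (4 - 9 * N) ^ 6 + (397221/1024 : ℝ) * N ^ 3 * (4 - 9 * N) ^ 5 + (31502527/8192 : ℝ) * N ^ 4 * (4 - 9 * N) ^ 4 + (56880269/2048 : ℝ) * N ^ 5 * (4 - 9 * N) ^ 3 + (124769289/1024 : ℝ) * N ^ 6 * (4 - 9 * N) ^ 2 + (155333167/512 : ℝ) * N ^ 7 * (4 - 9 * N) ^ 1 + (6386616991/16384 : ℝ) * N ^ 8) := by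
    unfold g0
    ring
  rw [key]
  apply neg_nonpos_of_nonneg
  positivity

theorem bA1 (N : ℝ) (h0 : 0 ≤ N) (h1 : 0 ≤ 4 - 9 * N) :
    g0 N + (1/6 : ℝ) * g1 N * ((1 + 2 * N) ^ 2 / 25) + 50 ≤ 0 := by
  have key : g0 N + (1/6 : ℝ) * g1 N * ((1 + 2 * N) ^ 2 / 25) + 50
      = -((3985/262144 : ℝ) * (4 - 9 * N) ^ 9 + (1029429/1310720 : ℝ) * N ^ 1 * (4 - 9 * N) ^ 8 + (102664049/4915200 : ℝ) * N ^ 2 * (4 - 9 * N) ^ 7 + (1997708449/4915200 : ℝ) * N ^ 3 * (4 - 9 * N) ^ 6 + (19676389243/3276800 : ℝ) * N ^ 4 * (4 - 9 * N) ^ 5 + (24444237433/393216 : ℝ) * N ^ 5 * (4 - 9 * N) ^ 4 + (82716988825/196608 : ℝ) * N ^ 6 * (4 - 9 * N) ^ 3 + (2873273758891/1638400 : ℝ) * N ^ 7 * (4 - 9 * N) ^ 2 + (80193421034267/19660800 : ℝ) * N ^ 8 * (4 - 9 * N) ^ 1 + (79830466719931/19660800 : ℝ) *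 N ^ 9) := by
    unfold g0 g1
    ring
  rw [key]
  apply neg_nonpos_of_nonneg
  positivity

theorem bA2 (N : ℝ) (h0 : 0 ≤ N) (h1 : 0 ≤ 4 - 9 * N) :
    g0 N + (1/3 : ℝ) * g1 N * ((1 + 2 * N) ^ 2 / 25) + (1/15 : ℝ) * g2 N * ((1 + 2 * N) ^ 2 / 25) ^ 2 + 50 ≤ 0 := by
  have key : g0 N + (1/3 : ℝ) * g1 N * ((1 + 2 * N) ^ 2 / 25) + (1/15 : ℝ) * g2 N * ((1 + 2 * N) ^ 2 / 25) ^ 2 + 50
      = -((1326991/327680000 : ℝ) * (4 - 9 * N) ^ 10 + (223281047/819200000 : ℝ) * N ^ 1 * (4 - 9 * N) ^ 9 + (3138749771/327680000 : ℝ) * N ^ 2 * (4 - 9 * N) ^ 8 + (47794721293/204800000 : ℝ) * N ^ 3 * (4 - 9 * N) ^ 7 + (3364920107187/819200000 : ℝ) * N ^ 4 * (4 - 9 * N) ^ 6 + (20857190810437/409600000 : ℝ) * N ^ 5 * (4 - 9 * N) ^ 5 + (353537854757659/819200000 : ℝ) * N ^ 6 * (4 - 9 * N) ^ 4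 + (99123306854361/40960000 : ℝ) * N ^ 7 * (4 - 9 * N) ^ 3 + (13937890907099023/1638400000 : ℝ) * N ^ 8 * (4 - 9 * N) ^ 2 + (13746633323131319/819200000 : ℝ) * N ^ 9 * (4 - 9 * N) ^ 1 + (22767675560712851/1638400000 : ℝ) * N ^ 10) := by
    unfold g0 g1 g2
    ring
  rw [key]
  apply neg_nonpos_of_nonneg
  positivity

theorem bA3 (N : ℝ) (h0 : 0 ≤ N) (h1 : 0 ≤ 4 - 9 * N) :
    g0 N + (1/2 : ℝ) * g1 N * ((1 + 2 * N) ^ 2 / 25) + (1/5 : ℝ) * g2 N * ((1 + 2 * N) ^ 2 / 25) ^ 2 + (1/20 : ℝ) * g3 N * ((1 + 2 * N) ^ 2 / 25) ^ 3 + 50 ≤ 0 := by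
  have key : g0 N + (1/2 : ℝ) * g1 N * ((1 + 2 * N) ^ 2 / 25) + (1/5 : ℝ) * g2 N * ((1 + 2 * N) ^ 2 / 25) ^ 2 + (1/20 : ℝ) * g3 N * ((1 + 2 * N) ^ 2 / 25) ^ 3 + 50
      = -((35891759/32768000000 : ℝ) * (4 - 9 * N) ^ 11 + (2965561733/32768000000 : ℝ) * N ^ 1 * (4 - 9 * N) ^ 10 + (5044611003/1310720000 : ℝ) * N ^ 2 * (4 - 9 * N) ^ 9 + (143309574781/1310720000 : ℝ) * N ^ 3 * (4 - 9 * N) ^ 8 + (7203536258451/3276800000 : ℝ) * N ^ 4 * (4 - 9 * N) ^ 7 + (514632738136333/16384000000 : ℝ) * N ^ 5 * (4 - 9 * N) ^ 6 + (5182052559776351/16384000000 : ℝ) * N ^ 6 * (4 - 9 * N) ^ 5 + (1447553890411833/655360000 : ℝ) * N ^ 7 * (4 - 9 * N) ^ 4 + (13598772138022091/1310720000 : ℝ) * N ^ 8 * (4 - 9 * N) ^ 3 + (202380064569983309/6553600000 : ℝ) * N ^ 9 * (4 - 9 * N) ^ 2 + (1687302622118276671/32768000000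 : ℝ) * N ^ 10 * (4 - 9 * N) ^ 1 + (1148949584101724297/32768000000 : ℝ) * N ^ 11) := by
    unfold g0 g1 g2 g3
    ring
  rw [key]
  apply neg_nonpos_of_nonneg
  positivity

theorem bA4 (N : ℝ) (h0 : 0 ≤ N) (h1 : 0 ≤ 4 - 9 * N) :
    g0 N + (2/3 : ℝ) * g1 N * ((1 + 2 * N) ^ 2 / 25) + (2/5 : ℝ) * g2 N * ((1 + 2 * N) ^ 2 / 25) ^ 2 + (1/5 : ℝ) * g3 N * ((1 + 2 * N) ^ 2 / 25) ^ 3 + (1/15 : ℝ) * g4 N * ((1 + 2 * N) ^ 2 / 25) ^ 4 + 50 ≤ 0 := by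
  have key : g0 N + (2/3 : ℝ) * g1 N * ((1 + 2 * N) ^ 2 / 25) + (2/5 : ℝ) * g2 N * ((1 + 2 * N) ^ 2 / 25) ^ 2 + (1/5 : ℝ) * g3 N * ((1 + 2 * N) ^ 2 / 25) ^ 3 + (1/15 : ℝ) * g4 N * ((1 + 2 * N) ^ 2 / 25) ^ 4 + 50
      = -((980267783/3276800000000 : ℝ) * (4 - 9 * N) ^ 12 + (23838195357/819200000000 : ℝ) * N ^ 1 * (4 - 9 * N) ^ 11 + (7028282308901/4915200000000 : ℝ) * N ^ 2 * (4 - 9 * N) ^ 10 + (1502507960337/32768000000 : ℝ) * N ^ 3 * (4 - 9 * N) ^ 9 + (2027470325009023/1966080000000 : ℝ) * N ^ 4 * (4 - 9 * N) ^ 8 + (6808012875104829/409600000000 : ℝ) * N ^ 5 * (4 - 9 * N) ^ 7 + (474141586464607459/2457600000000 : ℝ) * N ^ 6 * (4 - 9 * N) ^ 6 + (1971684387618351991/1228800000000 : ℝ) * N ^ 7 * (4 - 9 * N) ^ 5 + (1232303330884825137/131072000000 : ℝ) * N ^ 8 * (4 - 9 *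 N) ^ 4 + (18416790470025028799/491520000000 : ℝ) * N ^ 9 * (4 - 9 * N) ^ 3 + (466398867602611676773/4915200000000 : ℝ) * N ^ 10 * (4 - 9 * N) ^ 2 + (326323086741974881559/2457600000000 : ℝ) * N ^ 11 * (4 - 9 * N) ^ 1 + (702320016549070080373/9830400000000 : ℝ) * N ^ 12) := by
    unfold g0 g1 g2 g3 g4
    ring
  rw [key]
  apply neg_nonpos_of_nonneg
  positivity

theorem bA5 (N : ℝ) (h0 : 0 ≤ N) (h1 : 0 ≤ 4 - 9 * N) :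
    g0 N + (5/6 : ℝ) * g1 N * ((1 + 2 * N) ^ 2 / 25) + (2/3 : ℝ) * g2 N * ((1 + 2 * N) ^ 2 / 25) ^ 2 + (1/2 : ℝ) * g3 N * ((1 + 2 * N) ^ 2 / 25) ^ 3 + (1/3 : ℝ) * g4 N * ((1 + 2 * N) ^ 2 / 25) ^ 4 + (1/6 : ℝ) * g5 N * ((1 + 2 * N) ^ 2 / 25) ^ 5 + 50 ≤ 0 := by
  have key : g0 N + (5/6 : ℝ) * g1 N * ((1 + 2 * N) ^ 2 / 25) + (2/3 : ℝ) * g2 N * ((1 + 2 * N) ^ 2 / 25) ^ 2 + (1/2 : ℝ) * g3 N * ((1 + 2 * N) ^ 2 / 25) ^ 3 + (1/3 : ℝ) * g4 N * ((1 + 2 * N) ^ 2 / 25) ^ 4 + (1/6 : ℝ) * g5 N * ((1 + 2 * N) ^ 2 / 25) ^ 5 + 50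
      = -((1076579591/13107200000000 : ℝ) * (4 - 9 * N) ^ 13 + (119601282099/13107200000000 : ℝ) * N ^ 1 * (4 - 9 * N) ^ 12 + (9903718043651/19660800000000 : ℝ) * N ^ 2 * (4 - 9 * N) ^ 11 + (70325812878151/3932160000000 : ℝ) * N ^ 3 * (4 - 9 * N) ^ 10 + (3489198731573147/7864320000000 : ℝ) * N ^ 4 * (4 - 9 * N) ^ 9 + (312500295177138187/39321600000000 : ℝ) * N ^ 5 * (4 - 9 * N) ^ 8 + (1024281070772486977/9830400000000 : ℝ) * N ^ 6 * (4 - 9 * N) ^ 7 + (9853097857347174217/9830400000000 : ℝ) * N ^ 7 * (4 - 9 * N) ^ 6 + (55192025900616636791/7864320000000 : ℝ) * N ^ 8 * (4 - 9 * N) ^ 5 + (275385582206406172499/7864320000000 : ℝ) * N ^ 9 * (4 - 9 * N) ^ 4 + (2348145594253165740491/19660800000000 : ℝ) * N ^ 10 * (4 - 9 * N) ^ 3 + (1685651404924006429513/6553600000000 : ℝ)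 * N ^ 11 * (4 - 9 * N) ^ 2 + (3877157023566137139451/13107200000000 : ℝ) * N ^ 12 * (4 - 9 * N) ^ 1 + (294687381815869174803/2621440000000 : ℝ) * N ^ 13) := by
    unfold g0 g1 g2 g3 g4 g5
    ring
  rw [key]
  apply neg_nonpos_of_nonneg
  positivity

theorem bA6 (N : ℝ) (h0 : 0 ≤ N) (h1 : 0 ≤ 4 - 9 * N) :
    g0 N + g1 N * ((1 + 2 * N) ^ 2 / 25) + g2 N * ((1 + 2 * N) ^ 2 / 25) ^ 2 + g3 N * ((1 + 2 * N) ^ 2 / 25) ^ 3 + g4 N * ((1 + 2 * N) ^ 2 / 25) ^ 4 + g5 N * ((1 + 2 * N) ^ 2 / 25) ^ 5 + g6 N * ((1 + 2 * N) ^ 2 / 25) ^ 6 + 50 ≤ 0 := by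
  have key : g0 N + g1 N * ((1 + 2 * N) ^ 2 / 25) + g2 N * ((1 + 2 * N) ^ 2 / 25) ^ 2 + g3 N * ((1 + 2 * N) ^ 2 / 25) ^ 3 + g4 N * ((1 + 2 * N) ^ 2 / 25) ^ 4 + g5 N * ((1 + 2 * N) ^ 2 / 25) ^ 5 + g6 N * ((1 + 2 * N) ^ 2 / 25) ^ 6 + 50
      = -((47385119/2097152000000 : ℝ) * (4 - 9 * N) ^ 14 + (14698382373/5242880000000 : ℝ) * N ^ 1 * (4 - 9 * N) ^ 13 + (8946180894861/52428800000000 : ℝ) * N ^ 2 * (4 - 9 * N) ^ 12 + (86771632713461/13107200000000 : ℝ) * N ^ 3 * (4 - 9 * N) ^ 11 + (9399489933542079/52428800000000 : ℝ) * N ^ 4 * (4 - 9 * N) ^ 10 + (18501667051269771/5242880000000 : ℝ) * N ^ 5 * (4 - 9 * N) ^ 9 + (539900212264208553/10485760000000 : ℝ) * N ^ 6 * (4 - 9 * N) ^ 8 + (3677943626231034723/6553600000000 : ℝ) * N ^ 7 * (4 - 9 * N) ^ 7 + (239135234528715694941/52428800000000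 : ℝ) * N ^ 8 * (4 - 9 * N) ^ 6 + (715733226917951941143/26214400000000 : ℝ) * N ^ 9 * (4 - 9 * N) ^ 5 + (1229193902963024942019/10485760000000 : ℝ) * N ^ 10 * (4 - 9 * N) ^ 4 + (900360890722948798833/2621440000000 : ℝ) * N ^ 11 * (4 - 9 * N) ^ 3 + (32686512460510611773149/52428800000000 : ℝ) * N ^ 12 * (4 - 9 * N) ^ 2 + (14677805913986773900953/26214400000000 : ℝ) * N ^ 13 * (4 - 9 * N) ^ 1 + (4841161618763519027031/52428800000000 : ℝ) * N ^ 14) := by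
    unfold g0 g1 g2 g3 g4 g5 g6
    ring
  rw [key]
  apply neg_nonpos_of_nonneg
  positivity

theorem bB0 (x : ℝ) (h0 : 0 ≤ x) (h1 : 0 ≤ 1 - 3 * x) :
    g0 ((1 - x) ^ 2) + 50 ≤ 0 := by
  have key : g0 ((1 - x) ^ 2) + 50
      = -((26194 : ℝ) * (1 - 3 * x) ^ 16 + (967656 : ℝ) * x ^ 1 * (1 - 3 * x) ^ 15 + (16645608 : ℝ) * x ^ 2 * (1 - 3 * x) ^ 14 + (176671044 : ℝ) * x ^ 3 * (1 - 3 * x) ^ 13 + (1293958593 : ℝ) * x ^ 4 * (1 - 3 * x) ^ 12 + (6936729120 : ℝ) * x ^ 5 * (1 - 3 * x) ^ 11 + (28200490644 : ℝ) * x ^ 6 * (1 - 3 * x) ^ 10 + (88967226256 : ℝ) * x ^ 7 * (1 - 3 * x) ^ 9 + (221259806036 : ℝ) * x ^ 8 * (1 - 3 * x) ^ 8 + (438482968784 : ℝ) * x ^ 9 * (1 - 3 * x) ^ 7 + (696775260804 : ℝ) * x ^ 10 * (1 - 3 * x) ^ 6 + (887797207180 : ℝ) * x ^ 11 * (1 - 3 * x) ^ 5 + (897396897973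 : ℝ) * x ^ 12 * (1 - 3 * x) ^ 4 + (699236432616 : ℝ) * x ^ 13 * (1 - 3 * x) ^ 3 + (395872289768 : ℝ) * x ^ 14 * (1 - 3 * x) ^ 2 + (144723807584 : ℝ) * x ^ 15 * (1 - 3 * x) ^ 1 + (25546467964 : ℝ) * x ^ 16) := by
    unfold g0
    ring
  rw [key]
  apply neg_nonpos_of_nonneg
  positivity

theorem bB1 (x : ℝ) (h0 : 0 ≤ x) (h1 : 0 ≤ 1 - 3 * x) :
    g0 ((1 - x) ^ 2) + (1/6 : ℝ) * g1 ((1 - x) ^ 2) * (x ^ 2) + 50 ≤ 0 := by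
  have key : g0 ((1 - x) ^ 2) + (1/6 : ℝ) * g1 ((1 - x) ^ 2) * (x ^ 2) + 50
      = -((26194 : ℝ) * (1 - 3 * x) ^ 16 + (967656 : ℝ) * x ^ 1 * (1 - 3 * x) ^ 15 + (16580700 : ℝ) * x ^ 2 * (1 - 3 * x) ^ 14 + (174538566 : ℝ) * x ^ 3 * (1 - 3 * x) ^ 13 + (1261751496 : ℝ) * x ^ 4 * (1 - 3 * x) ^ 12 + (6643650174 : ℝ) * x ^ 5 * (1 - 3 * x) ^ 11 + (52867582561/2 : ℝ) * x ^ 6 * (1 - 3 * x) ^ 10 + (245117230561/3 : ℝ) * x ^ 7 * (1 - 3 * x) ^ 9 + (1208944225409/6 : ℝ) * x ^ 8 * (1 - 3 * x) ^ 8 + (1226258740076/3 : ℝ) * x ^ 9 * (1 - 3 * x) ^ 7 + (4226191735891/6 : ℝ) * x ^ 10 * (1 - 3 * x) ^ 6 + (1048950184451 : ℝ) * x ^ 11 * (1 - 3 * x) ^ 5 + (2648317409823/2 : ℝ) * x ^ 12 * (1 - 3 * x) ^ 4 + (4000304734160/3 : ℝ) * x ^ 13 * (1 - 3 * x) ^ 3 + (2926899977705/3 : ℝ) * x ^ 14 * (1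 - 3 * x) ^ 2 + (1353291296518/3 : ℝ) * x ^ 15 * (1 - 3 * x) ^ 1 + (293202036571/3 : ℝ) * x ^ 16) := by
    unfold g0 g1
    ring
  rw [key]
  apply neg_nonpos_of_nonneg
  positivity

theorem bB2 (x : ℝ) (h0 : 0 ≤ x) (h1 : 0 ≤ 1 - 3 * x) :
    g0 ((1 - x) ^ 2) + (1/3 : ℝ) * g1 ((1 - x) ^ 2) * (x ^ 2) + (1/15 : ℝ) * g2 ((1 - x) ^ 2) * (x ^ 2) ^ 2 + 50 ≤ 0 := by
  have key : g0 ((1 - x) ^ 2) + (1/3 : ℝ) * g1 ((1 - x) ^ 2) * (x ^ 2) + (1/15 : ℝ) * g2 ((1 - x) ^ 2) * (x ^ 2) ^ 2 + 50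
      = -((26194 : ℝ) * (1 - 3 * x) ^ 16 + (967656 : ℝ) * x ^ 1 * (1 - 3 * x) ^ 15 + (16515792 : ℝ) * x ^ 2 * (1 - 3 * x) ^ 14 + (172406088 : ℝ) * x ^ 3 * (1 - 3 * x) ^ 13 + (6147208482/5 : ℝ) * x ^ 4 * (1 - 3 * x) ^ 12 + (31734241584/5 : ℝ) * x ^ 5 * (1 - 3 * x) ^ 11 + (123037699039/5 : ℝ) * x ^ 6 * (1 - 3 * x) ^ 10 + (369403663062/5 : ℝ) * x ^ 7 * (1 - 3 * x) ^ 9 + (534540500941/3 : ℝ) * x ^ 8 * (1 - 3 * x) ^ 8 + (5450661128684/15 : ℝ) * x ^ 9 * (1 - 3 * x) ^ 7 + (9929940461753/15 : ℝ) * x ^ 10 * (1 - 3 * x) ^ 6 + (5468853112082/5 : ℝ) * x ^ 11 * (1 - 3 * x) ^ 5 + (1554843490471 : ℝ) * x ^ 12 * (1 - 3 * x) ^ 4 + (8672683171168/5 : ℝ) * x ^ 13 * (1 - 3 * x) ^ 3 + (20553126915082/15 : ℝ) * x ^ 14 * (1 - 3 * x) ^ 2 + (10041724454428/15 : ℝ) * x ^ 15 * (1 - 3 * x) ^ 1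 + (2266102262386/15 : ℝ) * x ^ 16) := by
    unfold g0 g1 g2
    ring
  rw [key]
  apply neg_nonpos_of_nonneg
  positivity

theorem bB3 (x : ℝ) (h0 : 0 ≤ x) (h1 : 0 ≤ 1 - 3 * x) :
    g0 ((1 - x) ^ 2) + (1/2 : ℝ) * g1 ((1 - x) ^ 2) * (x ^ 2) + (1/5 : ℝ) * g2 ((1 - x) ^ 2) * (x ^ 2) ^ 2 + (1/20 : ℝ) * g3 ((1 - x) ^ 2) * (x ^ 2) ^ 3 + 50 ≤ 0 := by
  have key : g0 ((1 - x) ^ 2) + (1/2 : ℝ) * g1 ((1 - x) ^ 2) * (x ^ 2) + (1/5 : ℝ) * g2 ((1 - x) ^ 2) * (x ^ 2) ^ 2 + (1/20 : ℝ) * g3 ((1 - x) ^ 2) * (x ^ 2) ^ 3 + 50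
      = -((26194 : ℝ) * (1 - 3 * x) ^ 16 + (967656 : ℝ) * x ^ 1 * (1 - 3 * x) ^ 15 + (16450884 : ℝ) * x ^ 2 * (1 - 3 * x) ^ 14 + (170273610 : ℝ) * x ^ 3 * (1 - 3 * x) ^ 13 + (5985145971/5 : ℝ) * x ^ 4 * (1 - 3 * x) ^ 12 + (30231617742/5 : ℝ) * x ^ 5 * (1 - 3 * x) ^ 11 + (454430360973/20 : ℝ) * x ^ 6 * (1 - 3 * x) ^ 10 + (654873038597/10 : ℝ) * x ^ 7 * (1 - 3 * x) ^ 9 + (605112613575/4 : ℝ) * x ^ 8 * (1 - 3 * x) ^ 8 + (1510222098799/5 : ℝ) * x ^ 9 * (1 - 3 * x) ^ 7 + (11366683029607/20 : ℝ) * x ^ 10 * (1 - 3 * x) ^ 6 + (10181228310957/10 : ℝ) * x ^ 11 * (1 - 3 * x) ^ 5 + (6319844798121/4 : ℝ) * x ^ 12 * (1 - 3 * x) ^ 4 + (9433501560234/5 : ℝ) * x ^ 13 * (1 - 3 * x) ^ 3 + (7807085662322/5 : ℝ) * x ^ 14 * (1 - 3 * x) ^ 2 + (3935104194208/5 : ℝ) * x ^ 15 * (1 - 3 * x) ^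 1 + (907328135706/5 : ℝ) * x ^ 16) := by
    unfold g0 g1 g2 g3
    ring
  rw [key]
  apply neg_nonpos_of_nonneg
  positivity

theorem bB4 (x : ℝ) (h0 : 0 ≤ x) (h1 : 0 ≤ 1 - 3 * x) :
    g0 ((1 - x) ^ 2) + (2/3 : ℝ) * g1 ((1 - x) ^ 2) * (x ^ 2) + (2/5 : ℝ) * g2 ((1 - x) ^ 2) * (x ^ 2) ^ 2 + (1/5 : ℝ) * g3 ((1 - x) ^ 2) * (x ^ 2) ^ 3 + (1/15 : ℝ) * g4 ((1 - x) ^ 2) * (x ^ 2) ^ 4 + 50 ≤ 0 := by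
  have key : g0 ((1 - x) ^ 2) + (2/3 : ℝ) * g1 ((1 - x) ^ 2) * (x ^ 2) + (2/5 : ℝ) * g2 ((1 - x) ^ 2) * (x ^ 2) ^ 2 + (1/5 : ℝ) * g3 ((1 - x) ^ 2) * (x ^ 2) ^ 3 + (1/15 : ℝ) * g4 ((1 - x) ^ 2) * (x ^ 2) ^ 4 + 50
      = -((26194 : ℝ) * (1 - 3 * x) ^ 16 + (967656 : ℝ) * x ^ 1 * (1 - 3 * x) ^ 15 + (16385976 : ℝ) * x ^ 2 * (1 - 3 * x) ^ 14 + (168141132 : ℝ) * x ^ 3 * (1 - 3 * x) ^ 13 + (5822569947/5 : ℝ) * x ^ 4 * (1 - 3 * x) ^ 12 + (28710379344/5 : ℝ) * x ^ 5 * (1 - 3 * x) ^ 11 + (103877539129/5 : ℝ) * x ^ 6 * (1 - 3 * x) ^ 10 + (847808513846/15 : ℝ) * x ^ 7 * (1 - 3 * x) ^ 9 + (362206679375/3 : ℝ) * x ^ 8 * (1 - 3 * x) ^ 8 + (3366928165244/15 : ℝ) * x ^ 9 * (1 - 3 * x) ^ 7 + (6333499365113/15 : ℝ) * x ^ 10 * (1 - 3 * x) ^ 6 + (12283157691146/15 : ℝ) * x ^ 11 * (1 - 3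 * x) ^ 5 + (4180276495040/3 : ℝ) * x ^ 12 * (1 - 3 * x) ^ 4 + (26722523619824/15 : ℝ) * x ^ 13 * (1 - 3 * x) ^ 3 + (7706232152704/5 : ℝ) * x ^ 14 * (1 - 3 * x) ^ 2 + (3995380430976/5 : ℝ) * x ^ 15 * (1 - 3 * x) ^ 1 + (937978613382/5 : ℝ) * x ^ 16) := by
    unfold g0 g1 g2 g3 g4
    ring
  rw [key]
  apply neg_nonpos_of_nonneg
  positivity

theorem bB5 (x : ℝ) (h0 : 0 ≤ x) (h1 : 0 ≤ 1 - 3 * x) :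
    g0 ((1 - x) ^ 2) + (5/6 : ℝ) * g1 ((1 - x) ^ 2) * (x ^ 2) + (2/3 : ℝ) * g2 ((1 - x) ^ 2) * (x ^ 2) ^ 2 + (1/2 : ℝ) * g3 ((1 - x) ^ 2) * (x ^ 2) ^ 3 + (1/3 : ℝ) * g4 ((1 - x) ^ 2) * (x ^ 2) ^ 4 + (1/6 : ℝ) * g5 ((1 - x) ^ 2) * (x ^ 2) ^ 5 + 50 ≤ 0 := by
  have key : g0 ((1 - x) ^ 2) + (5/6 : ℝ) * g1 ((1 - x) ^ 2) * (x ^ 2) + (2/3 : ℝ) * g2 ((1 - x) ^ 2) * (x ^ 2) ^ 2 + (1/2 : ℝ) * g3 ((1 - x) ^ 2) * (x ^ 2) ^ 3 + (1/3 : ℝ) * g4 ((1 - x) ^ 2) * (x ^ 2) ^ 4 + (1/6 : ℝ) * g5 ((1 - x) ^ 2) * (x ^ 2) ^ 5 + 50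
      = -((26194 : ℝ) * (1 - 3 * x) ^ 16 + (967656 : ℝ) * x ^ 1 * (1 - 3 * x) ^ 15 + (16321068 : ℝ) * x ^ 2 * (1 - 3 * x) ^ 14 + (166008654 : ℝ) * x ^ 3 * (1 - 3 * x) ^ 13 + (1131896082 : ℝ) * x ^ 4 * (1 - 3 * x) ^ 12 + (5434105278 : ℝ) * x ^ 5 * (1 - 3 * x) ^ 11 + (18769290962 : ℝ) * x ^ 6 * (1 - 3 * x) ^ 10 + (46975634130 : ℝ) * x ^ 7 * (1 - 3 * x) ^ 9 + (86504219686 : ℝ) * x ^ 8 * (1 - 3 * x) ^ 8 + (391073035790/3 : ℝ) * x ^ 9 * (1 - 3 * x) ^ 7 + (668199248518/3 : ℝ) * x ^ 10 * (1 - 3 * x) ^ 6 + (493893925664 : ℝ) * x ^ 11 * (1 - 3 * x) ^ 5 + (2977328428744/3 : ℝ) * x ^ 12 * (1 - 3 * x) ^ 4 + (4252581853376/3 : ℝ) * x ^ 13 * (1 - 3 * x) ^ 3 + (1311016884016 : ℝ) * x ^ 14 * (1 - 3 * x) ^ 2 + (707977677216 : ℝ) * x ^ 15 * (1 - 3 * x) ^ 1 + (170514085198 : ℝ) * x ^ 16)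 := by
    unfold g0 g1 g2 g3 g4 g5
    ring
  rw [key]
  apply neg_nonpos_of_nonneg
  positivity

theorem bB6 (x : ℝ) (h0 : 0 ≤ x) (h1 : 0 ≤ 1 - 3 * x) :
    g0 ((1 - x) ^ 2) + g1 ((1 - x) ^ 2) * (x ^ 2) + g2 ((1 - x) ^ 2) * (x ^ 2) ^ 2 + g3 ((1 - x) ^ 2) * (x ^ 2) ^ 3 + g4 ((1 - x) ^ 2) * (x ^ 2) ^ 4 + g5 ((1 - x) ^ 2) * (x ^ 2) ^ 5 + g6 ((1 - x) ^ 2) * (x ^ 2) ^ 6 + 50 ≤ 0 := by
  have key : g0 ((1 - x) ^ 2) + g1 ((1 - x) ^ 2) * (x ^ 2) + g2 ((1 - x) ^ 2) * (x ^ 2) ^ 2 + g3 ((1 - x) ^ 2) * (x ^ 2) ^ 3 + g4 ((1 - x) ^ 2) * (x ^ 2) ^ 4 + g5 ((1 - x) ^ 2) * (x ^ 2) ^ 5 + g6 ((1 - x) ^ 2) * (x ^ 2) ^ 6 + 50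
      = -((26194 : ℝ) * (1 - 3 * x) ^ 18 + (1124820 : ℝ) * x ^ 1 * (1 - 3 * x) ^ 17 + (22297842 : ℝ) * x ^ 2 * (1 - 3 * x) ^ 16 + (270122040 : ℝ) * x ^ 3 * (1 - 3 * x) ^ 15 + (2228737968 : ℝ) * x ^ 4 * (1 - 3 * x) ^ 14 + (13192350192 : ℝ) * x ^ 5 * (1 - 3 * x) ^ 13 + (57329699184 : ℝ) * x ^ 6 * (1 - 3 * x) ^ 12 + (183165215472 : ℝ) * x ^ 7 * (1 - 3 * x) ^ 11 + (419946430152 : ℝ) * x ^ 8 * (1 - 3 * x) ^ 10 + (642329631192 : ℝ) * x ^ 9 * (1 - 3 * x) ^ 9 + (522768414216 : ℝ) * x ^ 10 * (1 - 3 * x) ^ 8 + (31673255160 : ℝ) * x ^ 11 * (1 - 3 * x) ^ 7 + (350967216792 : ℝ) * x ^ 12 * (1 - 3 * x) ^ 6 + (3442441981296 : ℝ) * x ^ 13 * (1 - 3 * x) ^ 5 + (9076987324632 : ℝ) * x ^ 14 * (1 - 3 * x) ^ 4 + (13005337053792 : ℝ) * x ^ 15 * (1 - 3 * x) ^ 3 + (11191926360990 : ℝ) * x ^ 16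 * (1 - 3 * x) ^ 2 + (5499951758964 : ℝ) * x ^ 17 * (1 - 3 * x) ^ 1 + (1199044927422 : ℝ) * x ^ 18) := by
    unfold g0 g1 g2 g3 g4 g5 g6
    ring
  rw [key]
  apply neg_nonpos_of_nonneg
  positivity

theorem G_neg_A (N : ℝ) (h0 : 0 ≤ N) (h1 : 0 ≤ 4 - 9 * N) (T : ℝ) (hT0 : 0 ≤ T) (hT1 : T ≤ 1) :
    G N (T * ((1 + 2 * N) ^ 2 / 25)) < 0 := by
  have hs : 0 ≤ 1 - T := by linarith
  have e0 := bA0 N h0 h1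
  have e1 := bA1 N h0 h1
  have e2 := bA2 N h0 h1
  have e3 := bA3 N h0 h1
  have e4 := bA4 N h0 h1
  have e5 := bA5 N h0 h1
  have e6 := bA6 N h0 h1
  have w0 : 0 ≤ (1 : ℝ) * T ^ 0 * (1 - T) ^ 6 := by positivity
  have w1 : 0 ≤ (6 : ℝ) * T ^ 1 * (1 - T) ^ 5 := by positivity
  have w2 : 0 ≤ (15 : ℝ) * T ^ 2 * (1 - T) ^ 4 := by positivity
  have w3 : 0 ≤ (20 : ℝ) * T ^ 3 * (1 - T) ^ 3 := by positivity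
  have w4 : 0 ≤ (15 : ℝ) * T ^ 4 * (1 - T) ^ 2 := by positivity
  have w5 : 0 ≤ (6 : ℝ) * T ^ 5 * (1 - T) ^ 1 := by positivity
  have w6 : 0 ≤ (1 : ℝ) * T ^ 6 * (1 - T) ^ 0 := by positivity
  have key : G N (T * ((1 + 2 * N) ^ 2 / 25)) + 50 =
      (g0 N + 50) * ((1 : ℝ) * T ^ 0 * (1 - T) ^ 6) + (g0 N + (1/6 : ℝ) * g1 N * ((1 + 2 * N) ^ 2 / 25) + 50) * ((6 : ℝ) * T ^ 1 * (1 - T) ^ 5) + (g0 N + (1/3 : ℝ) * g1 N * ((1 + 2 * N) ^ 2 / 25) + (1/15 : ℝ) * g2 N * ((1 + 2 * N) ^ 2 / 25) ^ 2 + 50) * ((15 : ℝ) * T ^ 2 * (1 - T) ^ 4) + (g0 N + (1/2 : ℝ) * g1 N * ((1 + 2 * N) ^ 2 / 25) + (1/5 : ℝ) * g2 N * ((1 + 2 * N) ^ 2 / 25) ^ 2 + (1/20 : ℝ) * g3 N * ((1 + 2 * N) ^ 2 / 25) ^ 3 + 50) * ((20 : ℝ) * T ^ 3 * (1 - T) ^ 3) + (g0 N + (2/3 : ℝ) * g1 N * ((1 + 2 * N) ^ 2 / 25) + (2/5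 : ℝ) * g2 N * ((1 + 2 * N) ^ 2 / 25) ^ 2 + (1/5 : ℝ) * g3 N * ((1 + 2 * N) ^ 2 / 25) ^ 3 + (1/15 : ℝ) * g4 N * ((1 + 2 * N) ^ 2 / 25) ^ 4 + 50) * ((15 : ℝ) * T ^ 4 * (1 - T) ^ 2) + (g0 N + (5/6 : ℝ) * g1 N * ((1 + 2 * N) ^ 2 / 25) + (2/3 : ℝ) * g2 N * ((1 + 2 * N) ^ 2 / 25) ^ 2 + (1/2 : ℝ) * g3 N * ((1 + 2 * N) ^ 2 / 25) ^ 3 + (1/3 : ℝ) * g4 N * ((1 + 2 * N) ^ 2 / 25) ^ 4 + (1/6 : ℝ) * g5 N * ((1 + 2 * N) ^ 2 / 25) ^ 5 + 50) * ((6 : ℝ) * T ^ 5 * (1 - T) ^ 1) + (g0 N + g1 N * ((1 + 2 * N) ^ 2 / 25) + g2 N * ((1 + 2 * N) ^ 2 / 25) ^ 2 + g3 N * ((1 + 2 * N) ^ 2 / 25) ^ 3 + g4 N * ((1 + 2 * N) ^ 2 / 25) ^ 4 + g5 N * ((1 + 2 * N) ^ 2 / 25) ^ 5 + g6 N * ((1 + 2 * N) ^ 2 / 25) ^ 6 + 50) * ((1 : ℝ) * T ^ 6 * (1 - T) ^ 0) := by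
    unfold G
    ring
  have p0 := mul_nonpos_of_nonpos_of_nonneg e0 w0
  have p1 := mul_nonpos_of_nonpos_of_nonneg e1 w1
  have p2 := mul_nonpos_of_nonpos_of_nonneg e2 w2
  have p3 := mul_nonpos_of_nonpos_of_nonneg e3 w3
  have p4 := mul_nonpos_of_nonpos_of_nonneg e4 w4
  have p5 := mul_nonpos_of_nonpos_of_nonneg e5 w5
  have p6 := mul_nonpos_of_nonpos_of_nonneg e6 w6
  linarith

theorem G_neg_B (x : ℝ) (h0 : 0 ≤ x) (h1 : 0 ≤ 1 - 3 * x) (T : ℝ) (hT0 : 0 ≤ T) (hT1 : T ≤ 1) :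
    G ((1 - x) ^ 2) (T * (x ^ 2)) < 0 := by
  have hs : 0 ≤ 1 - T := by linarith
  have e0 := bB0 x h0 h1
  have e1 := bB1 x h0 h1
  have e2 := bB2 x h0 h1
  have e3 := bB3 x h0 h1
  have e4 := bB4 x h0 h1
  have e5 := bB5 x h0 h1
  have e6 := bB6 x h0 h1
  have w0 : 0 ≤ (1 : ℝ) * T ^ 0 * (1 - T) ^ 6 := by positivity
  have w1 : 0 ≤ (6 : ℝ) * T ^ 1 * (1 - T) ^ 5 := by positivity
  have w2 : 0 ≤ (15 : ℝ) * T ^ 2 * (1 - T) ^ 4 := by positivity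
  have w3 : 0 ≤ (20 : ℝ) * T ^ 3 * (1 - T) ^ 3 := by positivity
  have w4 : 0 ≤ (15 : ℝ) * T ^ 4 * (1 - T) ^ 2 := by positivity
  have w5 : 0 ≤ (6 : ℝ) * T ^ 5 * (1 - T) ^ 1 := by positivity
  have w6 : 0 ≤ (1 : ℝ) * T ^ 6 * (1 - T) ^ 0 := by positivity
  have key : G ((1 - x) ^ 2) (T * (x ^ 2)) + 50 =
      (g0 ((1 - x) ^ 2) + 50) * ((1 : ℝ) * T ^ 0 * (1 - T) ^ 6) + (g0 ((1 - x) ^ 2) + (1/6 : ℝ) * g1 ((1 - x) ^ 2) * (x ^ 2) + 50) * ((6 : ℝ) * T ^ 1 * (1 - T) ^ 5) + (g0 ((1 - x) ^ 2) + (1/3 : ℝ) * g1 ((1 - x) ^ 2) * (x ^ 2) + (1/15 : ℝ) * g2 ((1 - x) ^ 2) * (x ^ 2) ^ 2 + 50) * ((15 : ℝ) * T ^ 2 * (1 - T) ^ 4) + (g0 ((1 - x) ^ 2) + (1/2 : ℝ) * g1 ((1 - x) ^ 2) * (x ^ 2) + (1/5 : ℝ) * g2 ((1 - x) ^ 2) * (x ^ 2) ^ 2 + (1/20 : ℝ) * g3 ((1 - x) ^ 2) * (x ^ 2) ^ 3 + 50) *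 ((20 : ℝ) * T ^ 3 * (1 - T) ^ 3) + (g0 ((1 - x) ^ 2) + (2/3 : ℝ) * g1 ((1 - x) ^ 2) * (x ^ 2) + (2/5 : ℝ) * g2 ((1 - x) ^ 2) * (x ^ 2) ^ 2 + (1/5 : ℝ) * g3 ((1 - x) ^ 2) * (x ^ 2) ^ 3 + (1/15 : ℝ) * g4 ((1 - x) ^ 2) * (x ^ 2) ^ 4 + 50) * ((15 : ℝ) * T ^ 4 * (1 - T) ^ 2) + (g0 ((1 - x) ^ 2) + (5/6 : ℝ) * g1 ((1 - x) ^ 2) * (x ^ 2) + (2/3 : ℝ) * g2 ((1 - x) ^ 2) * (x ^ 2) ^ 2 + (1/2 : ℝ) * g3 ((1 - x) ^ 2) * (x ^ 2) ^ 3 + (1/3 : ℝ) * g4 ((1 - x) ^ 2) * (x ^ 2) ^ 4 + (1/6 : ℝ) * g5 ((1 - x) ^ 2) * (x ^ 2) ^ 5 + 50) * ((6 : ℝ) * T ^ 5 * (1 - T) ^ 1) + (g0 ((1 - x) ^ 2) + g1 ((1 - x) ^ 2) * (x ^ 2) + g2 ((1 - x) ^ 2) * (x ^ 2) ^ 2 + g3 ((1 - x) ^ 2) * (x ^ 2) ^ 3 + g4 ((1 - x) ^ 2) * (x ^ 2) ^ 4 + g5 ((1 - x) ^ 2) * (x ^ 2) ^ 5 + g6 ((1 - x) ^ 2) * (x ^ 2) ^ 6 + 50) * ((1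 : ℝ) * T ^ 6 * (1 - T) ^ 0) := by
    unfold G
    ring
  have p0 := mul_nonpos_of_nonpos_of_nonneg e0 w0
  have p1 := mul_nonpos_of_nonpos_of_nonneg e1 w1
  have p2 := mul_nonpos_of_nonpos_of_nonneg e2 w2
  have p3 := mul_nonpos_of_nonpos_of_nonneg e3 w3
  have p4 := mul_nonpos_of_nonpos_of_nonneg e4 w4
  have p5 := mul_nonpos_of_nonpos_of_nonneg e5 w5
  have p6 := mul_nonpos_of_nonpos_of_nonneg e6 w6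
  linarith

/-- the curvature polynomial is negative on the closed hexagon -/
theorem G_neg (n m : ℝ) (h1 : |n| + |m| ≤ 1) (h2 : 5 * |m| ≤ 1 + 2 * n ^ 2) :
    G (n ^ 2) (m ^ 2) < 0 := by
  have hn := abs_nonneg n
  have hm := abs_nonneg m
  by_cases hc : |n| ≤ 2 / 3
  · have hN : n ^ 2 ≤ 4 / 9 := by
      rw [← sq_abs]; nlinarith
    have hq : 0 < (1 + 2 * n ^ 2) ^ 2 / 25 := by positivity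
    have hM : m ^ 2 ≤ (1 + 2 * n ^ 2) ^ 2 / 25 := by
      rw [← sq_abs m]
      nlinarith
    have := G_neg_A (n ^ 2) (by positivity) (by linarith) (m ^ 2 / ((1 + 2 * n ^ 2) ^ 2 / 25))
      (by positivity) (by rw [div_le_one hq]; exact hM)
    rwa [div_mul_cancel₀ _ hq.ne'] at this
  · push Not at hc
    have hx0 : 0 ≤ 1 - |n| := by linarith
    have hM : m ^ 2 ≤ (1 - |n|) ^ 2 := by
      rw [← sq_abs m]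
      nlinarith
    have hn2 : (1 - (1 - |n|)) ^ 2 = n ^ 2 := by
      rw [sub_sub_cancel, sq_abs]
    rcases eq_or_lt_of_le hx0 with h | h
    · have hm0 : m ^ 2 = 0 := by
        have : m ^ 2 ≤ 0 := by rw [← h] at hM; simpa using hM
        nlinarith [sq_nonneg m]
      have := G_neg_B (1 - |n|) hx0 (by linarith) 0 le_rfl zero_le_one
      rw [hn2, zero_mul] at this
      rw [hm0]
      exact this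
    · have hq : 0 < (1 - |n|) ^ 2 := by positivity
      have := G_neg_B (1 - |n|) hx0 (by linarith) (m ^ 2 / (1 - |n|) ^ 2)
        (by positivity) (by rw [div_le_one hq]; exact hM)
      rwa [div_mul_cancel₀ _ hq.ne', hn2] at this

end Pool.Agent.H97.NegCurv
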