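import Pool.Agent.H97.NegCurv.LinAlg
import Pool.Agent.H97.NegCurv.Neg

/-!
# Algebra of bivectors tangent to the surface
-/

noncomputable section

namespace Pool.Agent.H97.NegCurv

section
variable {x y a b c d v0 v1 v2 v3 w0 w1 w2 w3 : ℝ}

theorem biv01 (r1 : 2 * x * v0 - a * v2 - b * v3 = 0) (r2 : 2 * y * v1 - c * v2 - d * v3 = 0)
    (s1 : 2 * x * w0 - a * w2 - b * w3 = 0) (s2 : 2 * y * w1 - c * w2 - d * w3 = 0) :
    (16 * x ^ 2 * y ^ 2 + 4 * x ^ 2 * (c ^ 2 + d ^ 2) + 4 * y ^ 2 * (a ^ 2 + b ^ 2)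
      + (a * d - b * c) ^ 2) * (v0 * w1 - v1 * w0) =
      (4 * x * y * (v2 * w3 - v3 * w2) + 2 * x * c * (v1 * w3 - v3 * w1) - 2 * x * d * (v1 * w2 - v2 * w1)
      + 2 * y * a * (v0 * w3 - v3 * w0) - 2 * y * b * (v0 * w2 - v2 * w0)
      + (a * d - b * c) * (v0 * w1 - v1 * w0))
        * (a * d - b * c) := by
  linear_combination -(-4 * x * y * c * w2 - 4 * x * y * d * w3 - 2 * x * c ^ 2 * w1 - 2 * x * d ^ 2 * w1 - 2 * y * a * c * w0 - 2 * y * b * d * w0) * r1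
    - (4 * x * y * a * w2 + 4 * x * y * b * w3 + 2 * x * a * c * w1 + 2 * x * b * d * w1 + 2 * y * a ^ 2 * w0 + 2 * y * b ^ 2 * w0) * r2
    - (8 * x * y ^ 2 * v1 + 2 * x * c ^ 2 * v1 + 2 * x * d ^ 2 * v1 + 2 * y * a * c * v0 + 2 * y * b * d * v0) * s1
    - (-8 * x ^ 2 * y * v0 - 2 * x * a * c * v1 - 2 * x * b * d * v1 - 2 * y * a ^ 2 * v0 - 2 * y * b ^ 2 * v0) * s2

theorem biv02 (r1 : 2 * x * v0 - a * v2 - b * v3 = 0) (r2 : 2 * y * v1 - c * v2 - d * v3 = 0)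
    (s1 : 2 * x * w0 - a * w2 - b * w3 = 0) (s2 : 2 * y * w1 - c * w2 - d * w3 = 0) :
    (16 * x ^ 2 * y ^ 2 + 4 * x ^ 2 * (c ^ 2 + d ^ 2) + 4 * y ^ 2 * (a ^ 2 + b ^ 2)
      + (a * d - b * c) ^ 2) * (v0 * w2 - v2 * w0) =
      (4 * x * y * (v2 * w3 - v3 * w2) + 2 * x * c * (v1 * w3 - v3 * w1) - 2 * x * d * (v1 * w2 - v2 * w1)
      + 2 * y * a * (v0 * w3 - v3 * w0) - 2 * y * b * (v0 * w2 - v2 * w0)
      + (a * d - b * c) * (v0 * w1 - v1 * w0))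
        * (-2 * y * b) := by
  linear_combination -(-8 * x * y ^ 2 * w2 - 4 * x * y * c * w1 + 2 * x * c * d * w3 - 2 * x * d ^ 2 * w2 - 4 * y ^ 2 * a * w0 - a * d ^ 2 * w0 + b * c * d * w0) * r1
    - (-2 * x * b * c * w3 + 2 * x * b * d * w2 + a * b * d * w0 - b ^ 2 * c * w0) * r2
    - (8 * x * y ^ 2 * v2 + 2 * x * c ^ 2 * v2 + 2 * x * d ^ 2 * v2 + 4 * y ^ 2 * a * v0 + a * d ^ 2 * v0 - b * c * d * v0) * s1
    - (4 * x ^ 2 * c * v0 - 2 * x * a * c * v2 - 2 * x * b * d * v2 - a * b * d * v0 + b ^ 2 * c * v0) * s2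

theorem biv03 (r1 : 2 * x * v0 - a * v2 - b * v3 = 0) (r2 : 2 * y * v1 - c * v2 - d * v3 = 0)
    (s1 : 2 * x * w0 - a * w2 - b * w3 = 0) (s2 : 2 * y * w1 - c * w2 - d * w3 = 0) :
    (16 * x ^ 2 * y ^ 2 + 4 * x ^ 2 * (c ^ 2 + d ^ 2) + 4 * y ^ 2 * (a ^ 2 + b ^ 2)
      + (a * d - b * c) ^ 2) * (v0 * w3 - v3 * w0) =
      (4 * x * y * (v2 * w3 - v3 * w2) + 2 * x * c * (v1 * w3 - v3 * w1) - 2 * x * d * (v1 * w2 - v2 * w1)
      + 2 * y * a * (v0 * w3 - v3 * w0) - 2 * y * b * (v0 * w2 - v2 * w0)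
      + (a * d - b * c) * (v0 * w1 - v1 * w0))
        * (2 * y * a) := by
  linear_combination -(-8 * x * y ^ 2 * w3 - 4 * x * y * d * w1 - 2 * x * c ^ 2 * w3 + 2 * x * c * d * w2 - 4 * y ^ 2 * b * w0 + a * c * d * w0 - b * c ^ 2 * w0) * r1
    - (2 * x * a * c * w3 - 2 * x * a * d * w2 - a ^ 2 * d * w0 + a * b * c * w0) * r2
    - (8 * x * y ^ 2 * v3 + 2 * x * c ^ 2 * v3 + 2 * x * d ^ 2 * v3 + 4 * y ^ 2 * b * v0 - a * c * d * v0 + b * c ^ 2 * v0) * s1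
    - (4 * x ^ 2 * d * v0 - 2 * x * a * c * v3 - 2 * x * b * d * v3 + a ^ 2 * d * v0 - a * b * c * v0) * s2

theorem biv12 (r1 : 2 * x * v0 - a * v2 - b * v3 = 0) (r2 : 2 * y * v1 - c * v2 - d * v3 = 0)
    (s1 : 2 * x * w0 - a * w2 - b * w3 = 0) (s2 : 2 * y * w1 - c * w2 - d * w3 = 0) :
    (16 * x ^ 2 * y ^ 2 + 4 * x ^ 2 * (c ^ 2 + d ^ 2) + 4 * y ^ 2 * (a ^ 2 + b ^ 2)
      + (a * d - b * c) ^ 2) * (v1 * w2 - v2 * w1) =
      (4 * x * y * (v2 * w3 - v3 * w2) + 2 * x * c * (v1 * w3 - v3 * w1) - 2 * x * d * (v1 * w2 - v2 * w1)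
      + 2 * y * a * (v0 * w3 - v3 * w0) - 2 * y * b * (v0 * w2 - v2 * w0)
      + (a * d - b * c) * (v0 * w1 - v1 * w0))
        * (-2 * x * d) := by
  linear_combination -(-2 * y * a * d * w3 + 2 * y * b * d * w2 - a * d ^ 2 * w1 + b * c * d * w1) * r1
    - (-8 * x ^ 2 * y * w2 - 4 * x ^ 2 * c * w1 - 4 * x * y * a * w0 + 2 * y * a * b * w3 - 2 * y * b ^ 2 * w2 + a * b * d * w1 - b ^ 2 * c * w1) * r2
    - (4 * y ^ 2 * a * v1 - 2 * y * a * c * v2 - 2 * y * b * d * v2 + a * d ^ 2 * v1 - b * c * d * v1) * s1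
    - (8 * x ^ 2 * y * v2 + 4 * x ^ 2 * c * v1 + 2 * y * a ^ 2 * v2 + 2 * y * b ^ 2 * v2 - a * b * d * v1 + b ^ 2 * c * v1) * s2

theorem biv13 (r1 : 2 * x * v0 - a * v2 - b * v3 = 0) (r2 : 2 * y * v1 - c * v2 - d * v3 = 0)
    (s1 : 2 * x * w0 - a * w2 - b * w3 = 0) (s2 : 2 * y * w1 - c * w2 - d * w3 = 0) :
    (16 * x ^ 2 * y ^ 2 + 4 * x ^ 2 * (c ^ 2 + d ^ 2) + 4 * y ^ 2 * (a ^ 2 + b ^ 2)
      + (a * d - b * c) ^ 2) * (v1 * w3 - v3 * w1) =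
      (4 * x * y * (v2 * w3 - v3 * w2) + 2 * x * c * (v1 * w3 - v3 * w1) - 2 * x * d * (v1 * w2 - v2 * w1)
      + 2 * y * a * (v0 * w3 - v3 * w0) - 2 * y * b * (v0 * w2 - v2 * w0)
      + (a * d - b * c) * (v0 * w1 - v1 * w0))
        * (2 * x * c) := by
  linear_combination -(2 * y * a * c * w3 - 2 * y * b * c * w2 + a * c * d * w1 - b * c ^ 2 * w1) * r1
    - (-8 * x ^ 2 * y * w3 - 4 * x ^ 2 * d * w1 - 4 * x * y * b * w0 - 2 * y * a ^ 2 * w3 + 2 * y * a * b * w2 - a ^ 2 * d * w1 + a * b * c * w1) * r2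
    - (4 * y ^ 2 * b * v1 - 2 * y * a * c * v3 - 2 * y * b * d * v3 - a * c * d * v1 + b * c ^ 2 * v1) * s1
    - (8 * x ^ 2 * y * v3 + 4 * x ^ 2 * d * v1 + 2 * y * a ^ 2 * v3 + 2 * y * b ^ 2 * v3 + a ^ 2 * d * v1 - a * b * c * v1) * s2

theorem biv23 (r1 : 2 * x * v0 - a * v2 - b * v3 = 0) (r2 : 2 * y * v1 - c * v2 - d * v3 = 0)
    (s1 : 2 * x * w0 - a * w2 - b * w3 = 0) (s2 : 2 * y * w1 - c * w2 - d * w3 = 0) :
    (16 * x ^ 2 * y ^ 2 + 4 * x ^ 2 * (c ^ 2 + d ^ 2) + 4 * y ^ 2 * (a ^ 2 + b ^ 2)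
      + (a * d - b * c) ^ 2) * (v2 * w3 - v3 * w2) =
      (4 * x * y * (v2 * w3 - v3 * w2) + 2 * x * c * (v1 * w3 - v3 * w1) - 2 * x * d * (v1 * w2 - v2 * w1)
      + 2 * y * a * (v0 * w3 - v3 * w0) - 2 * y * b * (v0 * w2 - v2 * w0)
      + (a * d - b * c) * (v0 * w1 - v1 * w0))
        * (4 * x * y) := by
  linear_combination -(4 * y ^ 2 * a * w3 - 4 * y ^ 2 * b * w2 + 2 * y * a * d * w1 - 2 * y * b * c * w1) * r1
    - (4 * x ^ 2 * c * w3 - 4 * x ^ 2 * d * w2 - 2 * x * a * d * w0 + 2 * x * b * c * w0) * r2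
    - (-4 * y ^ 2 * a * v3 + 4 * y ^ 2 * b * v2 - a * c * d * v2 - a * d ^ 2 * v3 + b * c ^ 2 * v2 + b * c * d * v3) * s1
    - (-4 * x ^ 2 * c * v3 + 4 * x ^ 2 * d * v2 + a ^ 2 * d * v2 - a * b * c * v2 + a * b * d * v3 - b ^ 2 * c * v3) * s2

end

/-- tangent bivectors are multiples of the canonical one -/
theorem exists_biv {x y a b c d v0 v1 v2 v3 w0 w1 w2 w3 : ℝ}
    (hD : 16 * x ^ 2 * y ^ 2 + 4 * x ^ 2 * (c ^ 2 + d ^ 2) + 4 * y ^ 2 * (a ^ 2 + b ^ 2)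
      + (a * d - b * c) ^ 2 ≠ 0)
    (r1 : 2 * x * v0 - a * v2 - b * v3 = 0) (r2 : 2 * y * v1 - c * v2 - d * v3 = 0)
    (s1 : 2 * x * w0 - a * w2 - b * w3 = 0) (s2 : 2 * y * w1 - c * w2 - d * w3 = 0) :
    ∃ j : ℝ, v0 * w1 - v1 * w0 = j * (a * d - b * c) ∧ v0 * w2 - v2 * w0 = j * (-2 * y * b) ∧
      v0 * w3 - v3 * w0 = j * (2 * y * a) ∧ v1 * w2 - v2 * w1 = j * (-2 * x * d) ∧
      v1 * w3 - v3 * w1 = j * (2 * x * c) ∧ v2 * w3 - v3 * w2 = j * (4 * x * y) := by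
  have h01 := biv01 r1 r2 s1 s2
  have h02 := biv02 r1 r2 s1 s2
  have h03 := biv03 r1 r2 s1 s2
  have h12 := biv12 r1 r2 s1 s2
  have h13 := biv13 r1 r2 s1 s2
  have h23 := biv23 r1 r2 s1 s2
  set D := 16 * x ^ 2 * y ^ 2 + 4 * x ^ 2 * (c ^ 2 + d ^ 2) + 4 * y ^ 2 * (a ^ 2 + b ^ 2)
      + (a * d - b * c) ^ 2
  set S := 4 * x * y * (v2 * w3 - v3 * w2) + 2 * x * c * (v1 * w3 - v3 * w1)
      - 2 * x * d * (v1 * w2 - v2 * w1)
      + 2 * y * a * (v0 * w3 - v3 * w0) - 2 * y * b * (v0 * w2 - v2 * w0)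
      + (a * d - b * c) * (v0 * w1 - v1 * w0)
  refine ⟨S / D, ?_, ?_, ?_, ?_, ?_, ?_⟩ <;> rw [div_mul_eq_mul_div, eq_div_iff hD, mul_comm] <;>
    assumption

/-- The Gauss expression of a pair of tangent vectors as a multiple of the curvature polynomial. -/
theorem gauss_expr {x y a b c d v0 v1 v2 v3 w0 w1 w2 w3 azz azw aww bzz bzw bww j : ℝ}
    (h01 : v0 * w1 - v1 * w0 = j * (a * d - b * c)) (h02 : v0 * w2 - v2 * w0 = j * (-2 * y * b))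
    (h03 : v0 * w3 - v3 * w0 = j * (2 * y * a)) (h12 : v1 * w2 - v2 * w1 = j * (-2 * x * d))
    (h13 : v1 * w3 - v3 * w1 = j * (2 * x * c)) (h23 : v2 * w3 - v3 * w2 = j * (4 * x * y)) :
    (4 * y ^ 2 + (c ^ 2 + d ^ 2)) *
        ((2 * v0 * v0 - (azz * v2 * v2 + azw * (v2 * v3 + v3 * v2) + aww * v3 * v3)) *
          (2 * w0 * w0 - (azz * w2 * w2 + azw * (w2 * w3 + w3 * w2) + aww * w3 * w3))
          - (2 * v0 * w0 - (azz * v2 * w2 + azw * (v2 * w3 + v3 * w2) + aww * v3 * w3)) ^ 2)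
      + (4 * x ^ 2 + (a ^ 2 + b ^ 2)) *
        ((2 * v1 * v1 - (bzz * v2 * v2 + bzw * (v2 * v3 + v3 * v2) + bww * v3 * v3)) *
          (2 * w1 * w1 - (bzz * w2 * w2 + bzw * (w2 * w3 + w3 * w2) + bww * w3 * w3))
          - (2 * v1 * w1 - (bzz * v2 * w2 + bzw * (v2 * w3 + v3 * w2) + bww * v3 * w3)) ^ 2)
      - (a * c + b * d) *
        ((2 * v0 * v0 - (azz * v2 * v2 + azw * (v2 * v3 + v3 * v2) + aww * v3 * v3)) *
          (2 * w1 * w1 - (bzz * w2 * w2 + bzw * (w2 * w3 + w3 * w2) + bww * w3 * w3))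
        + (2 * v1 * v1 - (bzz * v2 * v2 + bzw * (v2 * v3 + v3 * v2) + bww * v3 * v3)) *
          (2 * w0 * w0 - (azz * w2 * w2 + azw * (w2 * w3 + w3 * w2) + aww * w3 * w3))
        - 2 * ((2 * v0 * w0 - (azz * v2 * w2 + azw * (v2 * w3 + v3 * w2) + aww * v3 * w3)) *
          (2 * v1 * w1 - (bzz * v2 * w2 + bzw * (v2 * w3 + v3 * w2) + bww * v3 * w3))))
    = 8 * j ^ 2 *
      (y ^ 2 * (4 * y ^ 2 + (c ^ 2 + d ^ 2)) *
          (2 * x ^ 2 * (azz * aww - azw ^ 2) - (a ^ 2 * aww - 2 * a * b * azw + b ^ 2 * azz))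
        + x ^ 2 * (4 * x ^ 2 + (a ^ 2 + b ^ 2)) *
          (2 * y ^ 2 * (bzz * bww - bzw ^ 2) - (c ^ 2 * bww - 2 * c * d * bzw + d ^ 2 * bzz))
        - 1 / 2 * (a * c + b * d) *
          (4 * x ^ 2 * y ^ 2 * (azz * bww + aww * bzz - 2 * azw * bzw)
            - 2 * x ^ 2 * (c ^ 2 * aww - 2 * c * d * azw + d ^ 2 * azz)
            - 2 * y ^ 2 * (a ^ 2 * bww - 2 * a * b * bzw + b ^ 2 * bzz)
            + (a * d - b * c) ^ 2)) := by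
  have e1 : (2 * v0 * v0 - (azz * v2 * v2 + azw * (v2 * v3 + v3 * v2) + aww * v3 * v3)) *
          (2 * w0 * w0 - (azz * w2 * w2 + azw * (w2 * w3 + w3 * w2) + aww * w3 * w3))
          - (2 * v0 * w0 - (azz * v2 * w2 + azw * (v2 * w3 + v3 * w2) + aww * v3 * w3)) ^ 2 =
      8 * j ^ 2 * y ^ 2 *
        (2 * x ^ 2 * (azz * aww - azw ^ 2) - (a ^ 2 * aww - 2 * a * b * azw + b ^ 2 * azz)) := by
    have : (2 * v0 * v0 - (azz * v2 * v2 + azw * (v2 * v3 + v3 * v2) + aww * v3 * v3)) *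
          (2 * w0 * w0 - (azz * w2 * w2 + azw * (w2 * w3 + w3 * w2) + aww * w3 * w3))
          - (2 * v0 * w0 - (azz * v2 * w2 + azw * (v2 * w3 + v3 * w2) + aww * v3 * w3)) ^ 2 =
        -2 * (azz * (v0 * w2 - v2 * w0) ^ 2
            + 2 * azw * ((v0 * w2 - v2 * w0) * (v0 * w3 - v3 * w0))
            + aww * (v0 * w3 - v3 * w0) ^ 2)
          + (azz * aww - azw ^ 2) * (v2 * w3 - v3 * w2) ^ 2 := by ring
    rw [this, h02, h03, h23]; ring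
  have e2 : (2 * v1 * v1 - (bzz * v2 * v2 + bzw * (v2 * v3 + v3 * v2) + bww * v3 * v3)) *
          (2 * w1 * w1 - (bzz * w2 * w2 + bzw * (w2 * w3 + w3 * w2) + bww * w3 * w3))
          - (2 * v1 * w1 - (bzz * v2 * w2 + bzw * (v2 * w3 + v3 * w2) + bww * v3 * w3)) ^ 2 =
      8 * j ^ 2 * x ^ 2 *
        (2 * y ^ 2 * (bzz * bww - bzw ^ 2) - (c ^ 2 * bww - 2 * c * d * bzw + d ^ 2 * bzz)) := by
    have : (2 * v1 * v1 - (bzz * v2 * v2 + bzw * (v2 * v3 + v3 * v2) + bww * v3 * v3)) *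
          (2 * w1 * w1 - (bzz * w2 * w2 + bzw * (w2 * w3 + w3 * w2) + bww * w3 * w3))
          - (2 * v1 * w1 - (bzz * v2 * w2 + bzw * (v2 * w3 + v3 * w2) + bww * v3 * w3)) ^ 2 =
        -2 * (bzz * (v1 * w2 - v2 * w1) ^ 2
            + 2 * bzw * ((v1 * w2 - v2 * w1) * (v1 * w3 - v3 * w1))
            + bww * (v1 * w3 - v3 * w1) ^ 2)
          + (bzz * bww - bzw ^ 2) * (v2 * w3 - v3 * w2) ^ 2 := by ring
    rw [this, h12, h13, h23]; ring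
  have e3 : (2 * v0 * v0 - (azz * v2 * v2 + azw * (v2 * v3 + v3 * v2) + aww * v3 * v3)) *
          (2 * w1 * w1 - (bzz * w2 * w2 + bzw * (w2 * w3 + w3 * w2) + bww * w3 * w3))
        + (2 * v1 * v1 - (bzz * v2 * v2 + bzw * (v2 * v3 + v3 * v2) + bww * v3 * v3)) *
          (2 * w0 * w0 - (azz * w2 * w2 + azw * (w2 * w3 + w3 * w2) + aww * w3 * w3))
        - 2 * ((2 * v0 * w0 - (azz * v2 * w2 + azw * (v2 * w3 + v3 * w2) + aww * v3 * w3)) *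
          (2 * v1 * w1 - (bzz * v2 * w2 + bzw * (v2 * w3 + v3 * w2) + bww * v3 * w3))) =
      4 * j ^ 2 * (4 * x ^ 2 * y ^ 2 * (azz * bww + aww * bzz - 2 * azw * bzw)
            - 2 * x ^ 2 * (c ^ 2 * aww - 2 * c * d * azw + d ^ 2 * azz)
            - 2 * y ^ 2 * (a ^ 2 * bww - 2 * a * b * bzw + b ^ 2 * bzz)
            + (a * d - b * c) ^ 2) := by
    have : (2 * v0 * v0 - (azz * v2 * v2 + azw * (v2 * v3 + v3 * v2) + aww * v3 * v3)) *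
          (2 * w1 * w1 - (bzz * w2 * w2 + bzw * (w2 * w3 + w3 * w2) + bww * w3 * w3))
        + (2 * v1 * v1 - (bzz * v2 * v2 + bzw * (v2 * v3 + v3 * v2) + bww * v3 * v3)) *
          (2 * w0 * w0 - (azz * w2 * w2 + azw * (w2 * w3 + w3 * w2) + aww * w3 * w3))
        - 2 * ((2 * v0 * w0 - (azz * v2 * w2 + azw * (v2 * w3 + v3 * w2) + aww * v3 * w3)) *
          (2 * v1 * w1 - (bzz * v2 * w2 + bzw * (v2 * w3 + v3 * w2) + bww * v3 * w3))) =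
        4 * (v0 * w1 - v1 * w0) ^ 2
          - 2 * (bzz * (v0 * w2 - v2 * w0) ^ 2
            + 2 * bzw * ((v0 * w2 - v2 * w0) * (v0 * w3 - v3 * w0))
            + bww * (v0 * w3 - v3 * w0) ^ 2)
          - 2 * (azz * (v1 * w2 - v2 * w1) ^ 2
            + 2 * azw * ((v1 * w2 - v2 * w1) * (v1 * w3 - v3 * w1))
            + aww * (v1 * w3 - v3 * w1) ^ 2)
          + (azz * bww + aww * bzz - 2 * azw * bzw) * (v2 * w3 - v3 * w2) ^ 2 := by ring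
    rw [this, h01, h02, h03, h12, h13, h23]; ring
  rw [e1, e2, e3]; ring

end Pool.Agent.H97.NegCurv
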