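import Pool.Agent.H97.NegCurv.Biv

/-!
# The functions defining the surface and their derivatives
-/

open scoped ContDiff RealInnerProductSpace Topology

noncomputable section

namespace Pool.Agent.H97.NegCurv

/-- the function `α` -/
def al (z w : ℝ) : ℝ := (1 + z ^ 2 / 2 - 2 * w) * ((1 + 2 * w / 5) ^ 2 - z ^ 2 / 4)

/-- `∂α/∂z` -/
def alz (z w : ℝ) : ℝ :=
  z * ((1 + 2 * w / 5) ^ 2 - z ^ 2 / 4) - (1 + z ^ 2 / 2 - 2 * w) * (z / 2)

/-- `∂α/∂w` -/
def alw (z w : ℝ) : ℝ :=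
  -2 * ((1 + 2 * w / 5) ^ 2 - z ^ 2 / 4) + (1 + z ^ 2 / 2 - 2 * w) * (4 / 5 * (1 + 2 * w / 5))

/-- `∂²α/∂z²` -/
def alzz (z w : ℝ) : ℝ :=
  ((1 + 2 * w / 5) ^ 2 - z ^ 2 / 4) - (1 + z ^ 2 / 2 - 2 * w) / 2 - z ^ 2

/-- `∂²α/∂z∂w` -/
def alzw (z w : ℝ) : ℝ := z * (4 / 5 * (1 + 2 * w / 5)) + z

/-- `∂²α/∂w²` -/
def alww (z w : ℝ) : ℝ := -(16 / 5) * (1 + 2 * w / 5) + 8 / 25 * (1 + z ^ 2 / 2 - 2 * w)

section
variable {U : Set (ℝ × ℝ)} {f g : ℝ × ℝ → ℝ} {q : ℝ × ℝ}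

theorem hasFDerivAt_of (hf : SmoothOn U f) (hq : q ∈ U) : HasFDerivAt f (fderiv ℝ f q) q :=
  (hf.differentiableAt hq).hasFDerivAt

theorem pd_al (hf : SmoothOn U f) (hg : SmoothOn U g) (e : ℝ × ℝ) (hq : q ∈ U) :
    pd e (fun x => al (f x) (g x)) q =
      alz (f q) (g q) * pd e f q + alw (f q) (g q) * pd e g q := by
  have hf' := hasFDerivAt_of hf hq
  have hg' := hasFDerivAt_of hg hq
  have hA := ((hf'.pow 2).mul_const (1 / 2)).const_add 1 |>.sub (hg'.const_mul 2)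
  have hB := (((hg'.const_mul (2 / 5)).const_add 1).pow 2).sub ((hf'.pow 2).mul_const (1 / 4))
  have h := hA.mul hB
  have e1 : (fun x => al (f x) (g x)) = fun x =>
      (1 + f x ^ 2 * (1 / 2) - 2 * g x) * ((1 + 2 / 5 * g x) ^ 2 - f x ^ 2 * (1 / 4)) := by
    ext x; unfold al; ring
  rw [e1]
  unfold pd
  erw [h.fderiv]
  simp [alz, alw]
  ring

theorem pd_alz (hf : SmoothOn U f) (hg : SmoothOn U g) (e : ℝ × ℝ) (hq : q ∈ U) :
    pd e (fun x => alz (f x) (g x)) q =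
      alzz (f q) (g q) * pd e f q + alzw (f q) (g q) * pd e g q := by
  have hf' := hasFDerivAt_of hf hq
  have hg' := hasFDerivAt_of hg hq
  have hA := ((hf'.pow 2).mul_const (1 / 2)).const_add 1 |>.sub (hg'.const_mul 2)
  have hB := (((hg'.const_mul (2 / 5)).const_add 1).pow 2).sub ((hf'.pow 2).mul_const (1 / 4))
  have h := (hf'.mul hB).sub (hA.mul (hf'.mul_const (1 / 2)))
  have e1 : (fun x => alz (f x) (g x)) = fun x =>
      f x * ((1 + 2 / 5 * g x) ^ 2 - f x ^ 2 * (1 / 4)) -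
        (1 + f x ^ 2 * (1 / 2) - 2 * g x) * (f x * (1 / 2)) := by
    ext x; unfold alz; ring
  rw [e1]
  unfold pd
  erw [h.fderiv]
  simp [alzz, alzw]
  ring

theorem pd_alw (hf : SmoothOn U f) (hg : SmoothOn U g) (e : ℝ × ℝ) (hq : q ∈ U) :
    pd e (fun x => alw (f x) (g x)) q =
      alzw (f q) (g q) * pd e f q + alww (f q) (g q) * pd e g q := by
  have hf' := hasFDerivAt_of hf hq
  have hg' := hasFDerivAt_of hg hq
  have hA := ((hf'.pow 2).mul_const (1 / 2)).const_add 1 |>.sub (hg'.const_mul 2)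
  have hB := (((hg'.const_mul (2 / 5)).const_add 1).pow 2).sub ((hf'.pow 2).mul_const (1 / 4))
  have h := (hB.const_mul (-2)).add (hA.mul (((hg'.const_mul (2 / 5)).const_add 1).const_mul (4 / 5)))
  have e1 : (fun x => alw (f x) (g x)) = fun x =>
      -2 * ((1 + 2 / 5 * g x) ^ 2 - f x ^ 2 * (1 / 4)) +
        (1 + f x ^ 2 * (1 / 2) - 2 * g x) * (4 / 5 * (1 + 2 / 5 * g x)) := by
    ext x; unfold alw; ring
  rw [e1]
  unfold pd
  erw [h.fderiv]
  simp [alzw, alww]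
  ring

theorem pd_neg (hg : SmoothOn U g) (e : ℝ × ℝ) (hq : q ∈ U) :
    pd e (fun x => -g x) q = -pd e g q := by
  unfold pd
  have := (hasFDerivAt_of hg hq).neg
  erw [this.fderiv]
  simp

theorem pd_sq (hf : SmoothOn U f) (e : ℝ × ℝ) (hq : q ∈ U) :
    pd e (fun x => f x ^ 2) q = 2 * f q * pd e f q := by
  unfold pd
  have := (hasFDerivAt_of hf hq).pow 2
  erw [this.fderiv]
  simp

theorem pd_mul (hf : SmoothOn U f) (hg : SmoothOn U g) (e : ℝ × ℝ) (hq : q ∈ U) :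
    pd e (fun x => f x * g x) q = f q * pd e g q + g q * pd e f q := by
  unfold pd
  have := (hasFDerivAt_of hf hq).mul (hasFDerivAt_of hg hq)
  erw [this.fderiv]
  simp

theorem pd_const_mul (hg : SmoothOn U g) (c : ℝ) (e : ℝ × ℝ) (hq : q ∈ U) :
    pd e (fun x => c * g x) q = c * pd e g q := by
  unfold pd
  have := (hasFDerivAt_of hg hq).const_mul c
  erw [this.fderiv]
  simp

theorem SmoothOn.mul' (hf : SmoothOn U f) (hg : SmoothOn U g) : SmoothOn U (fun x => f x * g x) :=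
  fun x hx => (hf x hx).mul (hg x hx)

theorem SmoothOn.neg' (hg : SmoothOn U g) : SmoothOn U (fun x => -g x) :=
  fun x hx => (hg x hx).neg

theorem SmoothOn.alz' (hf : SmoothOn U f) (hg : SmoothOn U g) :
    SmoothOn U (fun x => alz (f x) (g x)) := by
  intro x hx
  have h1 := hf x hx
  have h2 := hg x hx
  unfold alz
  fun_prop

theorem SmoothOn.alw' (hf : SmoothOn U f) (hg : SmoothOn U g) :
    SmoothOn U (fun x => alw (f x) (g x)) := by
  intro x hx
  have h1 := hf x hx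
  have h2 := hg x hx
  unfold alw
  fun_prop

end

/-- First and second order consequences of `f² = α(g, h)` on an open set. -/
theorem level_relations {U : Set (ℝ × ℝ)} (hU : IsOpen U) {f g h : ℝ × ℝ → ℝ}
    (hf : SmoothOn U f) (hg : SmoothOn U g) (hh : SmoothOn U h)
    (hrel : ∀ q ∈ U, f q ^ 2 = al (g q) (h q)) :
    (∀ e : ℝ × ℝ, ∀ q ∈ U, 2 * f q * pd e f q =
      alz (g q) (h q) * pd e g q + alw (g q) (h q) * pd e h q) ∧
    (∀ e e' : ℝ × ℝ, ∀ q ∈ U,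
      2 * f q * pd e' (pd e f) q - alz (g q) (h q) * pd e' (pd e g) q
        - alw (g q) (h q) * pd e' (pd e h) q =
      -(2 * pd e' f q * pd e f q - (alzz (g q) (h q) * pd e' g q * pd e g q
        + alzw (g q) (h q) * (pd e' g q * pd e h q + pd e' h q * pd e g q)
        + alww (g q) (h q) * pd e' h q * pd e h q))) := by
  have first : ∀ e : ℝ × ℝ, ∀ q ∈ U, 2 * f q * pd e f q =
      alz (g q) (h q) * pd e g q + alw (g q) (h q) * pd e h q := by
    intro e q hq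
    rw [← pd_sq hf e hq, ← pd_al hg hh e hq]
    exact pd_congr hU hrel e hq
  refine ⟨first, fun e e' q hq => ?_⟩
  have h1 := pd_congr hU (first e) e' hq
  have s1 : SmoothOn U (fun q => alz (g q) (h q)) := hg.alz' hh
  have s2 : SmoothOn U (fun q => alw (g q) (h q)) := hg.alw' hh
  have e1 : pd e' (fun q => 2 * f q * pd e f q) q =
      2 * (f q * pd e' (pd e f) q + pd e f q * pd e' f q) := by
    have : (fun q => 2 * f q * pd e f q) = fun q => 2 * (f q * pd e f q) := by ext; ring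
    rw [this, pd_const_mul (hf.mul' (hf.pd e)) 2 e' hq, pd_mul hf (hf.pd e) e' hq]
  have e2 : pd e' (fun q => alz (g q) (h q) * pd e g q + alw (g q) (h q) * pd e h q) q =
      (alz (g q) (h q) * pd e' (pd e g) q
        + pd e g q * (alzz (g q) (h q) * pd e' g q + alzw (g q) (h q) * pd e' h q))
      + (alw (g q) (h q) * pd e' (pd e h) q
        + pd e h q * (alzw (g q) (h q) * pd e' g q + alww (g q) (h q) * pd e' h q)) := by
    rw [pd_add (s1.mul' (hg.pd e)) (s2.mul' (hh.pd e)) e' hq, pd_mul s1 (hg.pd e) e' hq,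
      pd_mul s2 (hh.pd e) e' hq, pd_alz hg hh e' hq, pd_alw hg hh e' hq]
  rw [e1, e2] at h1
  linear_combination h1

theorem SmoothOn.coord {U : Set (ℝ × ℝ)} {φ : ℝ × ℝ → E4} (hφ : SmoothOn U φ) (i : Fin 4) :
    SmoothOn U (fun x => φ x i) := by
  intro q hq
  exact (EuclideanSpace.proj i : EuclideanSpace ℝ (Fin 4) →L[ℝ] ℝ).contDiff.contDiffAt.comp q (hφ q hq)

theorem pd_coord {U : Set (ℝ × ℝ)} {φ : ℝ × ℝ → E4} (hφ : SmoothOn U φ) (i : Fin 4) (e : ℝ × ℝ)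
    {q : ℝ × ℝ} (hq : q ∈ U) : pd e (fun x => φ x i) q = (pd e φ q) i := by
  have h := (hφ.differentiableAt hq).hasFDerivAt
  have h2 := (EuclideanSpace.proj i : EuclideanSpace ℝ (Fin 4) →L[ℝ] ℝ).hasFDerivAt.comp q h
  unfold pd
  erw [h2.fderiv]
  rfl

theorem pd_pd_coord {U : Set (ℝ × ℝ)} (hU : IsOpen U) {φ : ℝ × ℝ → E4} (hφ : SmoothOn U φ)
    (i : Fin 4) (e e' : ℝ × ℝ) {q : ℝ × ℝ} (hq : q ∈ U) :
    pd e' (pd e (fun x => φ x i)) q = (pd e' (pd e φ) q) i := by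
  rw [pd_congr hU (fun x hx => pd_coord hφ i e hx) e' hq]
  exact pd_coord (hφ.pd e) i e' hq

/-- inner product with an explicit vector -/
theorem inner_mk (v : E4) (a b c d : ℝ) :
    (⟪v, !₂[a, b, c, d]⟫ : ℝ) = v 0 * a + v 1 * b + v 2 * c + v 3 * d := by
  rw [PiLp.inner_apply, Fin.sum_univ_four]
  simp [mul_comm]

end Pool.Agent.H97.NegCurv
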