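import Pool.Agent.H97.NegCurv.Homeo

/-!
# The surface is connected
-/

open scoped ContDiff RealInnerProductSpace Topology

noncomputable section

namespace Pool.Agent.H97.NegCurv

/-- the hexagon -/
def Hex : Set (ℝ × ℝ) :=
  {q | |q.1| / 2 + 2 * |q.2| / 5 ≤ 1 ∧ 2 * |q.2| ≤ 1 + q.1 ^ 2 / 2}

theorem starConvex_Hex : StarConvex ℝ 0 Hex := by
  rw [starConvex_zero_iff]
  rintro ⟨z, w⟩ ⟨h1, h2⟩ s hs0 hs1
  simp only at h1 h2
  have az := abs_nonneg z
  have aw := abs_nonneg w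
  refine ⟨?_, ?_⟩
  · simp only [Prod.smul_mk, smul_eq_mul, abs_mul, abs_of_nonneg hs0]
    have : s * |z| / 2 + 2 * (s * |w|) / 5 = s * (|z| / 2 + 2 * |w| / 5) := by ring
    rw [this]
    exact mul_le_one₀ hs1 (by positivity) h1
  · simp only [Prod.smul_mk, smul_eq_mul, abs_mul, abs_of_nonneg hs0]
    have hz2 : z ^ 2 = |z| ^ 2 := (sq_abs z).symm
    rw [hz2] at h2
    rw [mul_pow, hz2]
    set Z := |z|
    set W := |w|
    by_cases hc : Z ^ 2 ≤ 2
    · have e1 : 2 * (s * W) ≤ s * (1 + Z ^ 2 / 2) := by nlinarith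
      have e2 : 0 ≤ (1 - s) * (1 - s * Z ^ 2 / 2) := by
        apply mul_nonneg (by linarith)
        nlinarith [sq_nonneg Z]
      nlinarith
    · push Not at hc
      have hZ : 7 / 5 ≤ Z := by nlinarith
      have hW : 2 * W ≤ 5 * (1 - Z / 2) := by linarith
      have e1 : 2 * (s * W) ≤ s * (5 * (1 - Z / 2)) := by nlinarith
      have e2 : s * (5 * (1 - Z / 2)) ≤ s * (7 / 5 * Z) := by
        apply mul_le_mul_of_nonneg_left _ hs0
        linarith
      nlinarith [sq_nonneg (7 / 10 * (s * Z) - 1), sq_nonneg (s * Z)]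

theorem al_nonneg_of {z w : ℝ} (h : (z, w) ∈ Hex) : 0 ≤ al z w ∧ 0 ≤ al z (-w) := by
  obtain ⟨h1, h2⟩ := h
  simp only at h1 h2
  have b := abs_le.1 (le_refl |w|)
  have az := abs_nonneg z
  have hz2 : z ^ 2 = |z| ^ 2 := (sq_abs z).symm
  constructor
  · unfold al
    apply mul_nonneg
    · linarith [b.2]
    · have : (1 + 2 * w / 5) ^ 2 - z ^ 2 / 4 =
          (1 + 2 * w / 5 - |z| / 2) * (1 + 2 * w / 5 + |z| / 2) := by rw [hz2]; ring
      rw [this]
      apply mul_nonneg <;> linarith [b.1]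
  · unfold al
    apply mul_nonneg
    · linarith [b.1]
    · have : (1 + 2 * -w / 5) ^ 2 - z ^ 2 / 4 =
          (1 - 2 * w / 5 - |z| / 2) * (1 - 2 * w / 5 + |z| / 2) := by rw [hz2]; ring
      rw [this]
      apply mul_nonneg <;> linarith [b.2]

/-- a sheet of the surface -/
def sheet (ε δ : ℝ) (q : ℝ × ℝ) : E4 := !₂[ε * √(al q.1 q.2), δ * √(al q.1 (-q.2)), q.1, q.2]

theorem continuous_sheet (ε δ : ℝ) : Continuous (sheet ε δ) := by
  unfold sheet
  refine (PiLp.continuous_toLp 2 _).comp ?_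
  refine continuous_pi fun i => ?_
  have h1 : Continuous fun q : ℝ × ℝ => al q.1 q.2 := by unfold al; fun_prop
  have h2 : Continuous fun q : ℝ × ℝ => al q.1 (-q.2) := by unfold al; fun_prop
  fin_cases i
  · exact continuous_const.mul h1.sqrt
  · exact continuous_const.mul h2.sqrt
  · exact continuous_fst
  · exact continuous_snd

/-- sign attached to a Boolean -/
def sg (b : Bool) : ℝ := if b then 1 else -1

theorem sg_sq (b : Bool) : sg b ^ 2 = 1 := by cases b <;> simp [sg]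

theorem M0_eq : M0 = ⋃ i : Bool × Bool, sheet (sg i.1) (sg i.2) '' Hex := by
  ext X
  rw [Set.mem_iUnion]
  constructor
  · rintro ⟨h0, h1, h2, h3⟩
    have hmem : (X 2, X 3) ∈ Hex := ⟨h2, h3⟩
    have key : ∀ x r : ℝ, x ^ 2 = r → ∃ b : Bool, x = sg b * √r := by
      intro x r hx
      rw [← hx, Real.sqrt_sq_eq_abs]
      rcases le_total 0 x with h | h
      · exact ⟨true, by simp [sg, abs_of_nonneg h]⟩
      · exact ⟨false, by simp [sg, abs_of_nonpos h]⟩
    obtain ⟨b, hb⟩ := key _ _ h0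
    obtain ⟨c, hc⟩ := key _ _ h1
    refine ⟨(b, c), (X 2, X 3), hmem, ?_⟩
    ext i
    fin_cases i
    · exact hb.symm
    · exact hc.symm
    · rfl
    · rfl
  · rintro ⟨⟨b, c⟩, ⟨z, w⟩, hq, rfl⟩
    obtain ⟨p1, p2⟩ := al_nonneg_of hq
    refine ⟨?_, ?_, hq.1, hq.2⟩
    · change (sg b * √(al z w)) ^ 2 = al z w
      rw [mul_pow, sg_sq, one_mul, Real.sq_sqrt p1]
    · change (sg c * √(al z (-w))) ^ 2 = al z (-w)
      rw [mul_pow, sg_sq, one_mul, Real.sq_sqrt p2]

theorem isConnected_M0 : IsConnected M0 := by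
  have hv : ((2, 0) : ℝ × ℝ) ∈ Hex := by
    constructor <;> norm_num
  have hal : al 2 0 = 0 := by unfold al; norm_num
  have hpt : ∀ i : Bool × Bool, sheet (sg i.1) (sg i.2) (2, 0) = sheet 1 1 (2, 0) := by
    intro i
    unfold sheet
    simp only [neg_zero, hal, Real.sqrt_zero, mul_zero]
  constructor
  · rw [M0_eq]
    exact ⟨sheet (sg true) (sg true) (2, 0), Set.mem_iUnion.2 ⟨(true, true), (2, 0), hv, rfl⟩⟩
  · rw [M0_eq]
    refine isPreconnected_iUnion ⟨sheet 1 1 (2, 0), ?_⟩ fun i => ?_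
    · rw [Set.mem_iInter]
      intro i
      exact ⟨(2, 0), hv, hpt i⟩
    · have h0 : (0 : ℝ × ℝ) ∈ Hex := by
        constructor <;> norm_num
      exact (starConvex_Hex.isPathConnected h0).isConnected.isPreconnected.image _
        (continuous_sheet _ _).continuousOn

end Pool.Agent.H97.NegCurv
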