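import Pool.Agent.H97.NegCurv.Chain

/-!
# The surface and the sign of its curvature
-/

open scoped ContDiff RealInnerProductSpace Topology

noncomputable section

namespace Pool.Agent.H97.NegCurv

/-- The surface. -/
def M0 : Set E4 :=
  {X | X 0 ^ 2 = al (X 2) (X 3) ∧ X 1 ^ 2 = al (X 2) (-X 3) ∧
    |X 2| / 2 + 2 * |X 3| / 5 ≤ 1 ∧ 2 * |X 3| ≤ 1 + X 2 ^ 2 / 2}

/-- the curvature numerator -/
def PP (x2 y2 a b c d azz azw aww bzz bzw bww : ℝ) : ℝ :=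
  y2 * (4 * y2 + (c ^ 2 + d ^ 2)) *
      (2 * x2 * (azz * aww - azw ^ 2) - (a ^ 2 * aww - 2 * a * b * azw + b ^ 2 * azz))
    + x2 * (4 * x2 + (a ^ 2 + b ^ 2)) *
      (2 * y2 * (bzz * bww - bzw ^ 2) - (c ^ 2 * bww - 2 * c * d * bzw + d ^ 2 * bzz))
    - 1 / 2 * (a * c + b * d) *
      (4 * x2 * y2 * (azz * bww + aww * bzz - 2 * azw * bzw)
        - 2 * x2 * (c ^ 2 * aww - 2 * c * d * azw + d ^ 2 * azz)
        - 2 * y2 * (a ^ 2 * bww - 2 * a * b * bzw + b ^ 2 * bzz)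
        + (a * d - b * c) ^ 2)

theorem PP_eq (z w : ℝ) :
    PP (al z w) (al z (-w)) (alz z w) (alw z w) (alz z (-w)) (-alw z (-w))
      (alzz z w) (alzw z w) (alww z w) (alzz z (-w)) (-alzw z (-w)) (alww z (-w)) =
    8 / 625 * G ((z / 2) ^ 2) ((2 * w / 5) ^ 2) := by
  unfold PP al alz alw alzz alzw alww G g0 g1 g2 g3 g4 g5 g6
  ring

theorem PP_neg {X : E4} (hX : X ∈ M0) :
    PP (X 0 ^ 2) (X 1 ^ 2) (alz (X 2) (X 3)) (alw (X 2) (X 3)) (alz (X 2) (-X 3))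
      (-alw (X 2) (-X 3)) (alzz (X 2) (X 3)) (alzw (X 2) (X 3)) (alww (X 2) (X 3))
      (alzz (X 2) (-X 3)) (-alzw (X 2) (-X 3)) (alww (X 2) (-X 3)) < 0 := by
  obtain ⟨h0, h1, h2, h3⟩ := hX
  rw [h0, h1, PP_eq]
  have := G_neg (X 2 / 2) (2 * X 3 / 5) (by
      rw [abs_div, abs_div, abs_mul, abs_two, abs_of_pos (by norm_num : (0 : ℝ) < 5)]
      exact h2) (by
      rw [abs_div, abs_mul, abs_two, abs_of_pos (by norm_num : (0 : ℝ) < 5)]
      linarith)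
  linarith

/-- the Gram determinant of the two gradients is positive where the curvature numerator is
nonzero -/
theorem gram_pos {x y a b c d azz azw aww bzz bzw bww : ℝ}
    (h : PP (x ^ 2) (y ^ 2) a b c d azz azw aww bzz bzw bww < 0) :
    0 < 16 * x ^ 2 * y ^ 2 + 4 * x ^ 2 * (c ^ 2 + d ^ 2) + 4 * y ^ 2 * (a ^ 2 + b ^ 2)
      + (a * d - b * c) ^ 2 := by
  have h1 : 0 ≤ 16 * x ^ 2 * y ^ 2 := by positivity
  have h2 : 0 ≤ 4 * x ^ 2 * (c ^ 2 + d ^ 2) := by positivity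
  have h3 : 0 ≤ 4 * y ^ 2 * (a ^ 2 + b ^ 2) := by positivity
  have h4 : 0 ≤ (a * d - b * c) ^ 2 := by positivity
  by_contra hcon
  push Not at hcon
  have e1 : 16 * x ^ 2 * y ^ 2 = 0 := by linarith
  have e2 : 4 * x ^ 2 * (c ^ 2 + d ^ 2) = 0 := by linarith
  have e3 : 4 * y ^ 2 * (a ^ 2 + b ^ 2) = 0 := by linarith
  have e4 : (a * d - b * c) ^ 2 = 0 := by linarith
  have hcd : x = 0 ∨ (c = 0 ∧ d = 0) := by
    rcases mul_eq_zero.1 e2 with h | h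
    · left
      have : x ^ 2 = 0 := by linarith
      exact pow_eq_zero_iff (two_ne_zero) |>.1 this
    · right
      constructor
      · nlinarith [sq_nonneg c, sq_nonneg d]
      · nlinarith [sq_nonneg c, sq_nonneg d]
  have hab : y = 0 ∨ (a = 0 ∧ b = 0) := by
    rcases mul_eq_zero.1 e3 with h | h
    · left
      have : y ^ 2 = 0 := by linarith
      exact pow_eq_zero_iff (two_ne_zero) |>.1 this
    · right
      constructor
      · nlinarith [sq_nonneg a, sq_nonneg b]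
      · nlinarith [sq_nonneg a, sq_nonneg b]
  have hxy : x = 0 ∨ y = 0 := by
    have : x ^ 2 * y ^ 2 = 0 := by linarith
    rcases mul_eq_zero.1 this with h | h
    · left; exact pow_eq_zero_iff (two_ne_zero) |>.1 h
    · right; exact pow_eq_zero_iff (two_ne_zero) |>.1 h
  unfold PP at h
  rw [e4] at h
  rcases hcd with rfl | ⟨rfl, rfl⟩ <;> rcases hab with rfl | ⟨rfl, rfl⟩ <;>
    rcases hxy with h' | h' <;> simp_all

/-- gradient of the first defining function -/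
def grad1 (X : E4) : E4 := !₂[2 * X 0, 0, -alz (X 2) (X 3), -alw (X 2) (X 3)]

/-- gradient of the second defining function -/
def grad2 (X : E4) : E4 := !₂[0, 2 * X 1, -alz (X 2) (-X 3), alw (X 2) (-X 3)]

theorem gram_eq (X : E4) :
    (⟪grad1 X, grad1 X⟫ * ⟪grad2 X, grad2 X⟫ - ⟪grad1 X, grad2 X⟫ ^ 2 : ℝ) =
      16 * X 0 ^ 2 * X 1 ^ 2 + 4 * X 0 ^ 2 * (alz (X 2) (-X 3) ^ 2 + (-alw (X 2) (-X 3)) ^ 2)
        + 4 * X 1 ^ 2 * (alz (X 2) (X 3) ^ 2 + alw (X 2) (X 3) ^ 2)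
        + (alz (X 2) (X 3) * (-alw (X 2) (-X 3)) - alw (X 2) (X 3) * alz (X 2) (-X 3)) ^ 2 := by
  unfold grad1 grad2
  simp only [inner_mk]
  simp only [PiLp.toLp_apply, Matrix.cons_val_zero, Matrix.cons_val_one, Matrix.cons_val]
  ring

theorem gram_pos' {X : E4} (hX : X ∈ M0) :
    0 < (⟪grad1 X, grad1 X⟫ * ⟪grad2 X, grad2 X⟫ - ⟪grad1 X, grad2 X⟫ ^ 2 : ℝ) := by
  rw [gram_eq]
  exact gram_pos (PP_neg hX)

/-- the area element is positive -/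
theorem area_pos {φ : ℝ × ℝ → E4} {x : ℝ × ℝ} (h : Function.Injective (fderiv ℝ φ x)) :
    0 < (⟪du φ x, du φ x⟫ * ⟪dv φ x, dv φ x⟫ - ⟪du φ x, dv φ x⟫ ^ 2 : ℝ) := by
  set a := du φ x with ha
  set b := dv φ x with hb
  have hW0 : 0 ≤ (⟪a, a⟫ * ⟪b, b⟫ - ⟪a, b⟫ ^ 2 : ℝ) := by
    have := real_inner_mul_inner_self_le a b
    rw [pow_two]
    linarith
  refine lt_of_le_of_ne hW0 fun hW => ?_
  have key : (⟪b, b⟫ : ℝ) • a + (-⟪a, b⟫ : ℝ) • b = 0 := by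
    rw [← inner_self_eq_zero (𝕜 := ℝ)]
    simp only [inner_add_right, inner_add_left, inner_smul_right, real_inner_smul_left,
      real_inner_comm a b]
    linear_combination (-(⟪b, b⟫ : ℝ)) * hW
  have h2 : fderiv ℝ φ x ((⟪b, b⟫ : ℝ), (-⟪a, b⟫ : ℝ)) = 0 := by
    have e : ((⟪b, b⟫ : ℝ), (-⟪a, b⟫ : ℝ)) =
        (⟪b, b⟫ : ℝ) • ((1, 0) : ℝ × ℝ) + (-⟪a, b⟫ : ℝ) • ((0, 1) : ℝ × ℝ) := by
      ext <;> simp
    rw [e, map_add, map_smul, map_smul]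
    exact key
  have h3 := h (h2.trans (map_zero _).symm)
  have h4 : (⟪b, b⟫ : ℝ) = 0 := congrArg Prod.fst h3
  have h5 : b = 0 := inner_self_eq_zero.1 h4
  have h6 : ((0, 1) : ℝ × ℝ) = 0 := h (by rw [map_zero]; exact h5)
  have := congrArg Prod.snd h6
  norm_num at this

theorem inner_eq_sum (v w : E4) :
    (⟪v, w⟫ : ℝ) = v 0 * w 0 + v 1 * w 1 + v 2 * w 2 + v 3 * w 3 := by
  rw [PiLp.inner_apply, Fin.sum_univ_four]
  simp [mul_comm]

/-- The Gaussian curvature of the surface is negative, in every local parametrization. -/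
theorem curv_neg {U : Set (ℝ × ℝ)} {φ : ℝ × ℝ → E4} (h : IsLocalParam M0 U φ) {p : ℝ × ℝ}
    (hp : p ∈ U) : gaussCurv φ p < 0 := by
  have hU := h.isOpen_domain
  have hφ : SmoothOn U φ := fun q hq => h.smooth.contDiffAt (hU.mem_nhds hq)
  have hX : φ p ∈ M0 := h.mapsTo hp
  have hP := PP_neg hX
  have hW := area_pos (h.immersive p hp)
  have hD := gram_pos' hX
  obtain ⟨R1a, R1b⟩ := level_relations hU (hφ.coord 0) (hφ.coord 2) (hφ.coord 3)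
    (fun q hq => (h.mapsTo hq).1)
  obtain ⟨R2a, R2b⟩ := level_relations hU (hφ.coord 1) (hφ.coord 2) (hφ.coord 3).neg'
    (fun q hq => (h.mapsTo hq).2.1)
  set e1 : ℝ × ℝ := (1, 0) with he1
  set e2 : ℝ × ℝ := (0, 1) with he2
  have c1 := fun i e => pd_coord hφ i e hp
  have c2 := fun i e e' => pd_pd_coord hU hφ i e e' hp
  have cn1 : ∀ e, pd e (fun x => -φ x 3) p = -(pd e φ p) 3 := fun e => by
    rw [pd_neg (hφ.coord 3) e hp, c1]
  have cn2 : ∀ e e', pd e' (pd e (fun x => -φ x 3)) p = -(pd e' (pd e φ) p) 3 := fun e e' => by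
    rw [pd_congr hU (fun q hq => pd_neg (hφ.coord 3) e hq) e' hp,
      pd_neg ((hφ.coord 3).pd e) e' hp, c2]
  have A1 := fun e => R1a e p hp
  have A2 := fun e => R2a e p hp
  have B1 := fun e e' => R1b e e' p hp
  have B2 := fun e e' => R2b e e' p hp
  simp only [c1, c2, cn1, cn2] at A1 A2 B1 B2
  have gi1 : ∀ v : E4, (⟪v, grad1 (φ p)⟫ : ℝ) =
      2 * φ p 0 * v 0 - alz (φ p 2) (φ p 3) * v 2 - alw (φ p 2) (φ p 3) * v 3 := by
    intro v; unfold grad1; rw [inner_mk]; ring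
  have gi2 : ∀ v : E4, (⟪v, grad2 (φ p)⟫ : ℝ) =
      2 * φ p 1 * v 1 - alz (φ p 2) (-φ p 3) * v 2 + alw (φ p 2) (-φ p 3) * v 3 := by
    intro v; unfold grad2; rw [inner_mk]; ring
  have gg11 : (⟪grad1 (φ p), grad1 (φ p)⟫ : ℝ) =
      4 * φ p 0 ^ 2 + (alz (φ p 2) (φ p 3) ^ 2 + alw (φ p 2) (φ p 3) ^ 2) := by
    unfold grad1; rw [inner_mk]
    simp only [PiLp.toLp_apply, Matrix.cons_val_zero, Matrix.cons_val_one, Matrix.cons_val]
    ring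
  have gg22 : (⟪grad2 (φ p), grad2 (φ p)⟫ : ℝ) =
      4 * φ p 1 ^ 2 + (alz (φ p 2) (-φ p 3) ^ 2 + (-alw (φ p 2) (-φ p 3)) ^ 2) := by
    unfold grad2; rw [inner_mk]
    simp only [PiLp.toLp_apply, Matrix.cons_val_zero, Matrix.cons_val_one, Matrix.cons_val]
    ring
  have gg12 : (⟪grad1 (φ p), grad2 (φ p)⟫ : ℝ) =
      alz (φ p 2) (φ p 3) * alz (φ p 2) (-φ p 3)
        + alw (φ p 2) (φ p 3) * (-alw (φ p 2) (-φ p 3)) := by
    unfold grad2 grad1; rw [inner_mk]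
    simp only [PiLp.toLp_apply, Matrix.cons_val_zero, Matrix.cons_val_one, Matrix.cons_val]
    ring
  -- tangency
  have t1 : ∀ e, (⟪pd e φ p, grad1 (φ p)⟫ : ℝ) = 0 := fun e => by
    rw [gi1]; linear_combination A1 e
  have t2 : ∀ e, (⟪pd e φ p, grad2 (φ p)⟫ : ℝ) = 0 := fun e => by
    rw [gi2]; linear_combination A2 e
  obtain ⟨j, h01, h02, h03, h12, h13, h23⟩ := exists_biv
    (x := φ p 0) (y := φ p 1) (a := alz (φ p 2) (φ p 3)) (b := alw (φ p 2) (φ p 3))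
    (c := alz (φ p 2) (-φ p 3)) (d := -alw (φ p 2) (-φ p 3))
    (v0 := pd e1 φ p 0) (v1 := pd e1 φ p 1) (v2 := pd e1 φ p 2) (v3 := pd e1 φ p 3)
    (w0 := pd e2 φ p 0) (w1 := pd e2 φ p 1) (w2 := pd e2 φ p 2) (w3 := pd e2 φ p 3)
    (by rw [gram_eq] at hD; exact hD.ne')
    (by linear_combination A1 e1) (by linear_combination A2 e1)
    (by linear_combination A1 e2) (by linear_combination A2 e2)
  have hj : j ≠ 0 := by
    rintro rfl
    simp only [zero_mul] at h01 h02 h03 h12 h13 h23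
    have hW' : (⟪du φ p, du φ p⟫ * ⟪dv φ p, dv φ p⟫ - ⟪du φ p, dv φ p⟫ ^ 2 : ℝ) = 0 := by
      simp only [inner_eq_sum, du_eq, dv_eq, ← he1, ← he2]
      linear_combination (pd e1 φ p 0 * pd e2 φ p 1 - pd e1 φ p 1 * pd e2 φ p 0) * h01
        + (pd e1 φ p 0 * pd e2 φ p 2 - pd e1 φ p 2 * pd e2 φ p 0) * h02
        + (pd e1 φ p 0 * pd e2 φ p 3 - pd e1 φ p 3 * pd e2 φ p 0) * h03
        + (pd e1 φ p 1 * pd e2 φ p 2 - pd e1 φ p 2 * pd e2 φ p 1) * h12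
        + (pd e1 φ p 1 * pd e2 φ p 3 - pd e1 φ p 3 * pd e2 φ p 1) * h13
        + (pd e1 φ p 2 * pd e2 φ p 3 - pd e1 φ p 3 * pd e2 φ p 2) * h23
    exact hW.ne' hW'
  refine gaussCurv_neg_of hU hφ hp (p := grad1 (φ p)) (q := grad2 (φ p)) (t1 e1) (t2 e1)
    (t1 e2) (t2 e2) hW hD ?_
  have key := gauss_expr (azz := alzz (φ p 2) (φ p 3)) (azw := alzw (φ p 2) (φ p 3))
    (aww := alww (φ p 2) (φ p 3)) (bzz := alzz (φ p 2) (-φ p 3))
    (bzw := -alzw (φ p 2) (-φ p 3)) (bww := alww (φ p 2) (-φ p 3)) h01 h02 h03 h12 h13 h23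
  have hRHS : 8 * j ^ 2 * PP (φ p 0 ^ 2) (φ p 1 ^ 2) (alz (φ p 2) (φ p 3)) (alw (φ p 2) (φ p 3))
      (alz (φ p 2) (-φ p 3)) (-alw (φ p 2) (-φ p 3)) (alzz (φ p 2) (φ p 3))
      (alzw (φ p 2) (φ p 3)) (alww (φ p 2) (φ p 3))
      (alzz (φ p 2) (-φ p 3)) (-alzw (φ p 2) (-φ p 3)) (alww (φ p 2) (-φ p 3)) < 0 :=
    mul_neg_of_pos_of_neg (by positivity) hP
  have k11 : ∀ e e', (⟪pd e' (pd e φ) p, grad1 (φ p)⟫ : ℝ) =
      -(2 * (pd e' φ p) 0 * (pd e φ p) 0 -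
        (alzz (φ p 2) (φ p 3) * (pd e' φ p) 2 * (pd e φ p) 2 +
          alzw (φ p 2) (φ p 3) * ((pd e' φ p) 2 * (pd e φ p) 3 + (pd e' φ p) 3 * (pd e φ p) 2) +
          alww (φ p 2) (φ p 3) * (pd e' φ p) 3 * (pd e φ p) 3)) := fun e e' => by
    rw [gi1, ← B1 e e']
  have k22 : ∀ e e', (⟪pd e' (pd e φ) p, grad2 (φ p)⟫ : ℝ) =
      -(2 * (pd e' φ p) 1 * (pd e φ p) 1 -
        (alzz (φ p 2) (-φ p 3) * (pd e' φ p) 2 * (pd e φ p) 2 +
          -alzw (φ p 2) (-φ p 3) * ((pd e' φ p) 2 * (pd e φ p) 3 + (pd e' φ p) 3 * (pd e φ p) 2) +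
          alww (φ p 2) (-φ p 3) * (pd e' φ p) 3 * (pd e φ p) 3)) := fun e e' => by
    rw [gi2]; linear_combination B2 e e'
  rw [gg11, gg22, gg12]
  simp only [du_eq, dv_eq, ← he1, ← he2, k11, k22]
  unfold PP at hRHS
  rw [← key] at hRHS
  refine lt_of_eq_of_lt ?_ hRHS
  ring

end Pool.Agent.H97.NegCurv
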