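import Mathlib

/-!
# Closed surfaces in Euclidean four-space: definitions

* `E4` is Euclidean four-space.
* `gaussCurv φ p` is the Gaussian curvature, at the parameter `p`, of the metric induced by a
  parametrized surface `φ : ℝ × ℝ → E4` (Brioschi's formula: it only uses the coefficients
  `E`, `F`, `G` of the first fundamental form and their partial derivatives).
* `IsLocalParam M U φ`: `φ` is a smooth regular parametrization, on the open set `U` of the plane,
  of a relatively open piece of `M`.
* `IsSmoothSurface M`: `M` is an embedded smooth surface without boundary.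
* `GenusTwo`: the closed orientable surface of genus two, as the double of a one-holed torus.
-/

open scoped ContDiff RealInnerProductSpace

noncomputable section

namespace Pool.Agent.H97.NegCurv

/-- Euclidean four-space. -/
abbrev E4 : Type := EuclideanSpace ℝ (Fin 4)

section partials

variable {F : Type*} [NormedAddCommGroup F] [NormedSpace ℝ F]

/-- The partial derivative of `f` with respect to the first variable `u`. -/
def du (f : ℝ × ℝ → F) (p : ℝ × ℝ) : F := fderiv ℝ f p (1, 0)

/-- The partial derivative of `f` with respect to the second variable `v`. -/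
def dv (f : ℝ × ℝ → F) (p : ℝ × ℝ) : F := fderiv ℝ f p (0, 1)

end partials

/-- The coefficient `E = ⟪φ_u, φ_u⟫` of the metric induced by `φ`. -/
def coeffE (φ : ℝ × ℝ → E4) (p : ℝ × ℝ) : ℝ := ⟪du φ p, du φ p⟫

/-- The coefficient `F = ⟪φ_u, φ_v⟫` of the metric induced by `φ`. -/
def coeffF (φ : ℝ × ℝ → E4) (p : ℝ × ℝ) : ℝ := ⟪du φ p, dv φ p⟫

/-- The coefficient `G = ⟪φ_v, φ_v⟫` of the metric induced by `φ`. -/
def coeffG (φ : ℝ × ℝ → E4) (p : ℝ × ℝ) : ℝ := ⟪dv φ p, dv φ p⟫

/-- The Gaussian curvature of the metric `E du² + 2 F du dv + G dv²` (Brioschi's formula). -/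
def brioschi (E F G : ℝ × ℝ → ℝ) (p : ℝ × ℝ) : ℝ :=
  (Matrix.det !![-(1 / 2) * dv (dv E) p + dv (du F) p - (1 / 2) * du (du G) p,
        (1 / 2) * du E p, du F p - (1 / 2) * dv E p;
      dv F p - (1 / 2) * du G p, E p, F p;
      (1 / 2) * dv G p, F p, G p]
    - Matrix.det !![0, (1 / 2) * dv E p, (1 / 2) * du G p;
      (1 / 2) * dv E p, E p, F p;
      (1 / 2) * du G p, F p, G p]) / (E p * G p - F p ^ 2) ^ 2

/-- The Gaussian curvature, at the parameter `p`, of the metric induced on the parameter domain
by the parametrized surface `φ` in Euclidean four-space. -/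
def gaussCurv (φ : ℝ × ℝ → E4) (p : ℝ × ℝ) : ℝ :=
  brioschi (coeffE φ) (coeffF φ) (coeffG φ) p

/-- `φ`, restricted to the open set `U` of the plane, is a smooth regular local parametrization of
`M`: it is `C^∞`, its derivative is injective at each point of `U`, and it is a homeomorphism of
`U` onto a relatively open subset of `M`. -/
structure IsLocalParam (M : Set E4) (U : Set (ℝ × ℝ)) (φ : ℝ × ℝ → E4) : Prop where
  isOpen_domain : IsOpen U
  smooth : ContDiffOn ℝ ∞ φ U
  immersive : ∀ p ∈ U, Function.Injective (fderiv ℝ φ p)
  mapsTo : Set.MapsTo φ U M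
  isOpenEmbedding : Topology.IsOpenEmbedding (Set.MapsTo.restrict φ U M mapsTo)

/-- `M` is a smooth embedded surface (without boundary) in Euclidean four-space: every point of
`M` lies in the image of a smooth regular local parametrization. -/
def IsSmoothSurface (M : Set E4) : Prop :=
  ∀ x ∈ M, ∃ (U : Set (ℝ × ℝ)) (φ : ℝ × ℝ → E4), IsLocalParam M U φ ∧ x ∈ φ '' U

/-- The closed orientable surface of genus two, as the double of a one-holed torus.
On the torus `{(z, w) : |z| = |w| = 1}` the set `{Re z + Re w > 4 / 3}` is an open disc around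
`(1, 1)`; its complement `T₀ = {Re z + Re w ≤ 4 / 3}` is the one-holed torus, with boundary circle
`{Re z + Re w = 4 / 3}`. The map `(z, w, t) ↦ (z, w)` is two-to-one over the interior of `T₀`
(the two sheets are `t > 0` and `t < 0`) and one-to-one over the boundary of `T₀`, so this space
is obtained from two copies of `T₀` by gluing them along their boundary: it is the connected sum
of two tori. -/
def GenusTwo : Set (ℂ × ℂ × ℝ) :=
  {q | ‖q.1‖ = 1 ∧ ‖q.2.1‖ = 1 ∧ q.2.2 ^ 2 = 4 / 3 - q.1.re - q.2.1.re}

end Pool.Agent.H97.NegCurv
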