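import Pool.Agent.H97.NegCurv.Defs

/-!
# Derivatives of maps of two variables, and Brioschi's formula
-/

open scoped ContDiff RealInnerProductSpace Topology

noncomputable section

namespace Pool.Agent.H97.NegCurv

section
variable {V : Type*} [NormedAddCommGroup V] [NormedSpace ℝ V]

/-- directional derivative -/
def pd (e : ℝ × ℝ) (f : ℝ × ℝ → V) (p : ℝ × ℝ) : V := fderiv ℝ f p e

theorem du_eq (f : ℝ × ℝ → V) : du f = pd (1, 0) f := rfl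
theorem dv_eq (f : ℝ × ℝ → V) : dv f = pd (0, 1) f := rfl

/-- smooth at each point of `U` -/
def SmoothOn (U : Set (ℝ × ℝ)) (f : ℝ × ℝ → V) : Prop := ∀ q ∈ U, ContDiffAt ℝ ∞ f q

variable {U : Set (ℝ × ℝ)} {f g : ℝ × ℝ → V}

theorem SmoothOn.pd (hf : SmoothOn U f) (e : ℝ × ℝ) : SmoothOn U (pd e f) := by
  intro q hq
  have h := (hf q hq).fderiv_right (m := ∞) (by simp)
  exact h.clm_apply contDiffAt_const

theorem SmoothOn.differentiableAt (hf : SmoothOn U f) {q : ℝ × ℝ} (hq : q ∈ U) :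
    DifferentiableAt ℝ f q := (hf q hq).differentiableAt (by simp)

theorem pd_congr (hU : IsOpen U) (h : ∀ q ∈ U, f q = g q) (e : ℝ × ℝ) {q : ℝ × ℝ} (hq : q ∈ U) :
    pd e f q = pd e g q := by
  unfold pd
  have : f =ᶠ[𝓝 q] g := by
    filter_upwards [hU.mem_nhds hq] with x hx using h x hx
  rw [this.fderiv_eq]

theorem SmoothOn.congr (hU : IsOpen U) (hf : SmoothOn U f) (h : ∀ q ∈ U, g q = f q) :
    SmoothOn U g := by
  intro q hq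
  refine (hf q hq).congr_of_eventuallyEq ?_
  filter_upwards [hU.mem_nhds hq] with x hx using h x hx

theorem pd_comm (hf : SmoothOn U f) (e e' : ℝ × ℝ) {q : ℝ × ℝ} (hq : q ∈ U) :
    pd e (pd e' f) q = pd e' (pd e f) q := by
  have h2 : ContDiffAt ℝ ∞ (fderiv ℝ f) q := (hf q hq).fderiv_right (m := ∞) (by simp)
  have hd : DifferentiableAt ℝ (fderiv ℝ f) q := h2.differentiableAt (by simp)
  have key : ∀ a b : ℝ × ℝ, pd a (pd b f) q = fderiv ℝ (fderiv ℝ f) q a b := by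
    intro a b
    unfold pd
    rw [fderiv_clm_apply hd (differentiableAt_const b)]
    simp
  rw [key, key]
  have hs : IsSymmSndFDerivAt ℝ f q := (hf q hq).isSymmSndFDerivAt (by
    simp only [minSmoothness_of_isRCLikeNormedField]
    exact ENat.LEInfty.out)
  exact hs.eq e e'

end

section inner
variable {V : Type*} [NormedAddCommGroup V] [InnerProductSpace ℝ V]
variable {U : Set (ℝ × ℝ)} {f g : ℝ × ℝ → V}

theorem SmoothOn.inner (hf : SmoothOn U f) (hg : SmoothOn U g) :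
    SmoothOn U (fun q => (⟪f q, g q⟫ : ℝ)) :=
  fun q hq => (hf q hq).inner ℝ (hg q hq)

theorem pd_inner (hf : SmoothOn U f) (hg : SmoothOn U g) (e : ℝ × ℝ) {q : ℝ × ℝ} (hq : q ∈ U) :
    pd e (fun q => (⟪f q, g q⟫ : ℝ)) q = ⟪f q, pd e g q⟫ + ⟪pd e f q, g q⟫ := by
  unfold pd
  exact fderiv_inner_apply ℝ (hf.differentiableAt hq) (hg.differentiableAt hq) e

end inner

theorem pd_add {U : Set (ℝ × ℝ)} {f g : ℝ × ℝ → ℝ} (hf : SmoothOn U f) (hg : SmoothOn U g)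
    (e : ℝ × ℝ) {q : ℝ × ℝ} (hq : q ∈ U) :
    pd e (fun x => f x + g x) q = pd e f q + pd e g q := by
  unfold pd
  rw [fderiv_fun_add (hf.differentiableAt hq) (hg.differentiableAt hq)]
  rfl

/-- Brioschi's formula in terms of second derivatives: the Gauss equation. -/
theorem gaussCurv_eq {U : Set (ℝ × ℝ)} (hU : IsOpen U) {φ : ℝ × ℝ → E4} (hφ : SmoothOn U φ)
    {p : ℝ × ℝ} (hp : p ∈ U) {a b uu uv vv : E4} (ha : a = du φ p) (hb : b = dv φ p)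
    (huu : uu = du (du φ) p) (huv : uv = du (dv φ) p) (hvv : vv = dv (dv φ) p) :
    gaussCurv φ p =
      ((⟪uu, vv⟫ - ⟪uv, uv⟫ : ℝ) * (⟪a, a⟫ * ⟪b, b⟫ - ⟪a, b⟫ ^ 2)
        - (⟪b, b⟫ * ⟪uu, a⟫ * ⟪vv, a⟫ + ⟪a, a⟫ * ⟪uu, b⟫ * ⟪vv, b⟫
            - ⟪a, b⟫ * (⟪uu, a⟫ * ⟪vv, b⟫ + ⟪uu, b⟫ * ⟪vv, a⟫))
        + (⟪b, b⟫ * ⟪uv, a⟫ ^ 2 + ⟪a, a⟫ * ⟪uv, b⟫ ^ 2
            - 2 * ⟪a, b⟫ * (⟪uv, a⟫ * ⟪uv, b⟫))) /
      (⟪a, a⟫ * ⟪b, b⟫ - ⟪a, b⟫ ^ 2) ^ 2 := by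
  set e1 : ℝ × ℝ := (1, 0)
  set e2 : ℝ × ℝ := (0, 1)
  have S1 := hφ.pd e1
  have S2 := hφ.pd e2
  have S11 := S1.pd e1
  have S12 := S2.pd e1
  have S21 := S1.pd e2
  have S22 := S2.pd e2
  -- symmetric second derivatives
  have hc : ∀ q ∈ U, pd e2 (pd e1 φ) q = pd e1 (pd e2 φ) q := fun q hq => pd_comm hφ e2 e1 hq
  -- first derivatives of the coefficients
  have E1 : ∀ q ∈ U, pd e1 (coeffE φ) q = 2 * ⟪pd e1 (pd e1 φ) q, pd e1 φ q⟫ := by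
    intro q hq
    have := pd_inner S1 S1 e1 hq
    rw [real_inner_comm] at this
    change pd e1 (fun q => ⟪pd e1 φ q, pd e1 φ q⟫) q = _
    rw [this]; ring
  have E2 : ∀ q ∈ U, pd e2 (coeffE φ) q = 2 * ⟪pd e1 (pd e2 φ) q, pd e1 φ q⟫ := by
    intro q hq
    have := pd_inner S1 S1 e2 hq
    rw [real_inner_comm] at this
    change pd e2 (fun q => ⟪pd e1 φ q, pd e1 φ q⟫) q = _
    rw [this, hc q hq]; ring
  have G1 : ∀ q ∈ U, pd e1 (coeffG φ) q = 2 * ⟪pd e1 (pd e2 φ) q, pd e2 φ q⟫ := by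
    intro q hq
    have := pd_inner S2 S2 e1 hq
    rw [real_inner_comm] at this
    change pd e1 (fun q => ⟪pd e2 φ q, pd e2 φ q⟫) q = _
    rw [this]; ring
  have G2 : ∀ q ∈ U, pd e2 (coeffG φ) q = 2 * ⟪pd e2 (pd e2 φ) q, pd e2 φ q⟫ := by
    intro q hq
    have := pd_inner S2 S2 e2 hq
    rw [real_inner_comm] at this
    change pd e2 (fun q => ⟪pd e2 φ q, pd e2 φ q⟫) q = _
    rw [this]; ring
  have F1 : ∀ q ∈ U, pd e1 (coeffF φ) q =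
      ⟪pd e1 φ q, pd e1 (pd e2 φ) q⟫ + ⟪pd e1 (pd e1 φ) q, pd e2 φ q⟫ := by
    intro q hq
    exact pd_inner S1 S2 e1 hq
  have F2 : ∀ q ∈ U, pd e2 (coeffF φ) q =
      ⟪pd e1 φ q, pd e2 (pd e2 φ) q⟫ + ⟪pd e1 (pd e2 φ) q, pd e2 φ q⟫ := by
    intro q hq
    have := pd_inner S1 S2 e2 hq
    rw [hc q hq] at this
    exact this
  -- second derivatives
  have smul2 : ∀ (h : ℝ × ℝ → ℝ) (e : ℝ × ℝ), SmoothOn U h → ∀ q ∈ U,
      pd e (fun x => 2 * h x) q = 2 * pd e h q := by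
    intro h e hh q hq
    have := pd_add hh hh e hq
    have h2 : (fun x => 2 * h x) = fun x => h x + h x := by ext x; ring
    rw [h2, this]; ring
  have E22 : pd e2 (pd e2 (coeffE φ)) p =
      2 * (⟪pd e1 (pd e2 φ) p, pd e1 (pd e2 φ) p⟫ + ⟪pd e2 (pd e1 (pd e2 φ)) p, pd e1 φ p⟫) := by
    rw [pd_congr hU E2 e2 hp, smul2 _ _ (S12.inner S1) p hp, pd_inner S12 S1 e2 hp, hc p hp]
  have G11 : pd e1 (pd e1 (coeffG φ)) p =
      2 * (⟪pd e1 (pd e2 φ) p, pd e1 (pd e2 φ) p⟫ + ⟪pd e1 (pd e1 (pd e2 φ)) p, pd e2 φ p⟫) := by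
    rw [pd_congr hU G1 e1 hp, smul2 _ _ (S12.inner S2) p hp, pd_inner S12 S2 e1 hp]
  have F12 : pd e2 (pd e1 (coeffF φ)) p =
      (⟪pd e1 φ p, pd e2 (pd e1 (pd e2 φ)) p⟫ + ⟪pd e1 (pd e2 φ) p, pd e1 (pd e2 φ) p⟫)
      + (⟪pd e1 (pd e1 φ) p, pd e2 (pd e2 φ) p⟫
        + ⟪pd e1 (pd e1 (pd e2 φ)) p, pd e2 φ p⟫) := by
    rw [pd_congr hU F1 e2 hp, pd_add (S1.inner S12) (S11.inner S2) e2 hp,
      pd_inner S1 S12 e2 hp, pd_inner S11 S2 e2 hp, hc p hp]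
    have : pd e2 (pd e1 (pd e1 φ)) p = pd e1 (pd e1 (pd e2 φ)) p := by
      rw [pd_comm S1 e2 e1 hp]
      exact pd_congr hU hc e1 hp
    rw [this]
  subst ha hb huu huv hvv
  unfold gaussCurv brioschi
  rw [Matrix.det_fin_three, Matrix.det_fin_three]
  simp only [Matrix.of_apply, Matrix.cons_val', Matrix.cons_val_zero, Matrix.cons_val_fin_one,
    Matrix.cons_val_one, Matrix.cons_val]
  simp only [du_eq, dv_eq] at *
  rw [E22, G11, F12, E1 p hp, E2 p hp, G1 p hp, G2 p hp, F1 p hp, F2 p hp]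
  simp only [coeffE, coeffF, coeffG, du_eq, dv_eq]
  rw [real_inner_comm (pd e1 φ p) (pd e1 (pd e2 φ) p), real_inner_comm (pd e1 φ p) (pd e2 (pd e2 φ) p),
    real_inner_comm (pd e1 φ p) (pd e2 (pd e1 (pd e2 φ)) p)]
  congr 1
  ring

end Pool.Agent.H97.NegCurv
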