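import Pool.Agent.H97.NegCurv.Smooth

/-!
# The surface has genus two
-/

open scoped ContDiff RealInnerProductSpace Topology

noncomputable section

namespace Pool.Agent.H97.NegCurv

/-- the denominator -/
def Q (a : ℝ) : ℝ := 6 - 5 * a + 2 * a ^ 2

theorem Q_pos (a : ℝ) : 0 < Q a := by
  unfold Q; nlinarith [sq_nonneg (4 * a - 5)]

/-- the square of the doubling coordinate -/
def hh (a : ℝ) : ℝ := 10 * a * (1 + 2 * a) / (3 * Q a)

theorem continuous_Q : Continuous Q := by unfold Q; fun_prop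

theorem continuous_hh : Continuous hh := by
  unfold hh
  refine Continuous.div (by fun_prop) (continuous_const.mul continuous_Q) fun a => ?_
  have := Q_pos a
  positivity

theorem hh_zero : hh 0 = 0 := by unfold hh; simp

theorem hh_nonneg {a : ℝ} (ha : 0 ≤ a) : 0 ≤ hh a := by
  unfold hh
  have := Q_pos a
  positivity

theorem hh_pos {a : ℝ} (ha : 0 < a) : 0 < hh a := by
  unfold hh
  have := Q_pos a
  positivity

theorem hh_inj {a b : ℝ} (ha0 : 0 ≤ a) (ha1 : a ≤ 1) (hb0 : 0 ≤ b) (hb1 : b ≤ 1)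
    (h : hh a = hh b) : a = b := by
  unfold hh at h
  have qa := Q_pos a
  have qb := Q_pos b
  rw [div_eq_div_iff (by positivity) (by positivity)] at h
  have key : (a - b) * (6 + 12 * (a + b) - 12 * a * b) = 0 := by
    unfold Q at h
    linear_combination h / 30
  rcases mul_eq_zero.1 key with h1 | h1
  · linarith
  · exfalso
    nlinarith [mul_nonneg ha0 hb0, mul_le_one₀ ha1 hb0 hb1]

/-- `4 / 3 - (u + v)` -/
theorem hh_eq (a : ℝ) : hh a = 4 / 3 - 2 * (4 - 5 * a - 2 * a ^ 2) / Q a := by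
  have := (Q_pos a).ne'
  unfold hh
  field_simp
  unfold Q
  ring

/-- the doubling coordinate -/
def tau (z : ℝ) : ℝ := √(hh (max z 0 / 2)) - √(hh (max (-z) 0 / 2))

theorem continuous_tau : Continuous tau := by
  unfold tau
  have := continuous_hh
  fun_prop

theorem tau_of_nonneg {z : ℝ} (hz : 0 ≤ z) : tau z = √(hh (z / 2)) := by
  unfold tau
  rw [max_eq_left hz, max_eq_right (by linarith), zero_div, hh_zero, Real.sqrt_zero, sub_zero]

theorem tau_of_nonpos {z : ℝ} (hz : z ≤ 0) : tau z = -√(hh (-z / 2)) := by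
  unfold tau
  rw [max_eq_right hz, max_eq_left (by linarith), zero_div, hh_zero, Real.sqrt_zero, zero_sub]

theorem tau_sq (z : ℝ) : tau z ^ 2 = hh (|z| / 2) := by
  rcases le_total 0 z with h | h
  · rw [tau_of_nonneg h, abs_of_nonneg h, Real.sq_sqrt (hh_nonneg (by linarith))]
  · rw [tau_of_nonpos h, abs_of_nonpos h, neg_sq, Real.sq_sqrt (hh_nonneg (by linarith))]

theorem tau_inj {z z' : ℝ} (hz : |z| ≤ 2) (hz' : |z'| ≤ 2) (h : tau z = tau z') : z = z' := by
  have hsq : hh (|z| / 2) = hh (|z'| / 2) := by rw [← tau_sq, ← tau_sq, h]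
  have habs : |z| / 2 = |z'| / 2 :=
    hh_inj (by positivity) (by linarith) (by positivity) (by linarith) hsq
  have habs' : |z| = |z'| := by linarith
  rcases abs_eq_abs.1 habs' with h1 | h1
  · exact h1
  · rcases lt_trichotomy z' 0 with h2 | h2 | h2
    · exfalso
      have hz0 : 0 < z := by linarith
      rw [tau_of_nonneg hz0.le, tau_of_nonpos h2.le] at h
      have p1 : 0 < √(hh (z / 2)) := Real.sqrt_pos.2 (hh_pos (by linarith))
      have p2 := Real.sqrt_nonneg (hh (-z' / 2))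
      linarith
    · rw [h1, h2, neg_zero]
    · exfalso
      have hz0 : z < 0 := by linarith
      rw [tau_of_nonpos hz0.le, tau_of_nonneg h2.le] at h
      have p1 : 0 < √(hh (z' / 2)) := Real.sqrt_pos.2 (hh_pos (by linarith))
      have p2 := Real.sqrt_nonneg (hh (-z / 2))
      linarith

/-- the first coordinates -/
def uu (a m : ℝ) : ℝ := (4 - 5 * a - 2 * a ^ 2 + 10 * m) / Q a

/-- scaling factor -/
def sc (a m : ℝ) : ℝ := 10 / (Q a * √(5 * (1 + a + m)))

theorem circle_eq {a m x : ℝ} (hR : 0 < 1 + a + m)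
    (hx : x ^ 2 = (1 + 2 * a ^ 2 - 5 * m) * ((1 + m) ^ 2 - a ^ 2)) :
    uu a m ^ 2 + (sc a m * x) ^ 2 = 1 := by
  have hQ := (Q_pos a).ne'
  have hs : √(5 * (1 + a + m)) ^ 2 = 5 * (1 + a + m) := Real.sq_sqrt (by positivity)
  have hs0 : √(5 * (1 + a + m)) ≠ 0 := (Real.sqrt_pos.2 (by positivity)).ne'
  have e : (sc a m * x) ^ 2 = 20 * (1 + 2 * a ^ 2 - 5 * m) * (1 - a + m) / Q a ^ 2 := by
    unfold sc
    rw [mul_pow, div_pow, mul_pow, hs, hx]
    field_simp
    ring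
  rw [e]
  unfold uu
  field_simp
  unfold Q
  ring

/-- the comparison map to the genus two model -/
def Fmap (X : E4) : ℂ × ℂ × ℝ :=
  (⟨uu (|X 2| / 2) (2 * X 3 / 5), sc (|X 2| / 2) (2 * X 3 / 5) * X 0⟩,
    ⟨uu (|X 2| / 2) (-(2 * X 3 / 5)), sc (|X 2| / 2) (-(2 * X 3 / 5)) * X 1⟩,
    tau (X 2))

theorem al_eq (z w : ℝ) :
    al z w = (1 + 2 * (|z| / 2) ^ 2 - 5 * (2 * w / 5)) *
      ((1 + 2 * w / 5) ^ 2 - (|z| / 2) ^ 2) := by
  unfold al
  rw [div_pow, sq_abs]
  ring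

theorem al_eq' (z w : ℝ) :
    al z (-w) = (1 + 2 * (|z| / 2) ^ 2 - 5 * (-(2 * w / 5))) *
      ((1 + -(2 * w / 5)) ^ 2 - (|z| / 2) ^ 2) := by
  unfold al
  rw [div_pow, sq_abs]
  ring

theorem R_pos {X : E4} (hX : X ∈ M0) :
    0 < 1 + |X 2| / 2 + 2 * X 3 / 5 ∧ 0 < 1 + |X 2| / 2 + -(2 * X 3 / 5) := by
  have h3 := abs_le.1 (mem_bounds hX).2.1
  have a2 := abs_nonneg (X 2)
  constructor <;> linarith

theorem norm_mk_eq_one {u x : ℝ} (h : u ^ 2 + x ^ 2 = 1) : ‖(⟨u, x⟩ : ℂ)‖ = 1 := by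
  rw [Complex.norm_def, Complex.normSq_mk, ← pow_two, ← pow_two, h, Real.sqrt_one]

theorem Fmap_mem {X : E4} (hX : X ∈ M0) : Fmap X ∈ GenusTwo := by
  obtain ⟨r1, r2⟩ := R_pos hX
  refine ⟨?_, ?_, ?_⟩
  · exact norm_mk_eq_one (circle_eq r1 (hX.1.trans (al_eq _ _)))
  · exact norm_mk_eq_one (circle_eq r2 (hX.2.1.trans (al_eq' _ _)))
  · change tau (X 2) ^ 2 = 4 / 3 - uu (|X 2| / 2) (2 * X 3 / 5) - uu (|X 2| / 2) (-(2 * X 3 / 5))
    rw [tau_sq, hh_eq]
    have := (Q_pos (|X 2| / 2)).ne'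
    unfold uu
    field_simp
    ring

theorem uu_inj {a m m' : ℝ} (h : uu a m = uu a m') : m = m' := by
  unfold uu at h
  rw [div_left_inj' (Q_pos a).ne'] at h
  linarith

theorem Fmap_inj : Set.InjOn Fmap M0 := by
  intro X hX Y hY h
  have h1 := congrArg Prod.fst h
  have h2 := congrArg (fun q => q.2.1) h
  have h3 : tau (X 2) = tau (Y 2) := congrArg (fun q => q.2.2) h
  have e2 : X 2 = Y 2 := tau_inj (mem_bounds hX).1 (mem_bounds hY).1 h3
  have h1r : uu (|X 2| / 2) (2 * X 3 / 5) = uu (|Y 2| / 2) (2 * Y 3 / 5) :=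
    congrArg Complex.re h1
  have h1i : sc (|X 2| / 2) (2 * X 3 / 5) * X 0 = sc (|Y 2| / 2) (2 * Y 3 / 5) * Y 0 :=
    congrArg Complex.im h1
  have h2i : sc (|X 2| / 2) (-(2 * X 3 / 5)) * X 1 = sc (|Y 2| / 2) (-(2 * Y 3 / 5)) * Y 1 :=
    congrArg Complex.im h2
  rw [e2] at h1r h1i h2i
  have e3 : X 3 = Y 3 := by
    have := uu_inj h1r
    linarith
  rw [e3] at h1i h2i
  obtain ⟨r1, r2⟩ := R_pos hY
  have s1 : sc (|Y 2| / 2) (2 * Y 3 / 5) ≠ 0 := by
    unfold sc
    have := Q_pos (|Y 2| / 2)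
    have h' : 0 < √(5 * (1 + |Y 2| / 2 + 2 * Y 3 / 5)) := Real.sqrt_pos.2 (by positivity)
    positivity
  have s2 : sc (|Y 2| / 2) (-(2 * Y 3 / 5)) ≠ 0 := by
    unfold sc
    have := Q_pos (|Y 2| / 2)
    have h' : 0 < √(5 * (1 + |Y 2| / 2 + -(2 * Y 3 / 5))) := Real.sqrt_pos.2 (by positivity)
    positivity
  have e0 := mul_left_cancel₀ s1 h1i
  have e1 := mul_left_cancel₀ s2 h2i
  ext i
  fin_cases i
  · exact e0
  · exact e1
  · exact e2
  · exact e3

theorem Fmap_continuousOn : ContinuousOn Fmap M0 := by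
  have hc : ∀ i : Fin 4, Continuous (fun X : E4 => X i) := fun i => (co i).continuous
  have c0 := hc 0
  have c1 := hc 1
  have c2 := hc 2
  have c3 := hc 3
  have hQ : Continuous (fun X : E4 => Q (|X 2| / 2)) := continuous_Q.comp (by fun_prop)
  have hQ0 : ∀ X : E4, Q (|X 2| / 2) ≠ 0 := fun X => (Q_pos _).ne'
  have hu : ∀ σ : E4 → ℝ, Continuous σ → Continuous (fun X : E4 => uu (|X 2| / 2) (σ X)) := by
    intro σ hσ
    unfold uu
    exact Continuous.div (by fun_prop) hQ hQ0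
  have hs : ∀ σ : E4 → ℝ, Continuous σ → (∀ X ∈ M0, 0 < 1 + |X 2| / 2 + σ X) →
      ContinuousOn (fun X : E4 => sc (|X 2| / 2) (σ X)) M0 := by
    intro σ hσ hpos
    unfold sc
    refine ContinuousOn.div continuousOn_const ?_ ?_
    · apply Continuous.continuousOn
      exact hQ.mul (by fun_prop)
    · intro X hX
      have := Q_pos (|X 2| / 2)
      have h1 := hpos X hX
      have h' : 0 < √(5 * (1 + |X 2| / 2 + σ X)) := Real.sqrt_pos.2 (by positivity)
      positivity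
  have hmk : ∀ f g : E4 → ℝ, ContinuousOn f M0 → ContinuousOn g M0 →
      ContinuousOn (fun X => (⟨f X, g X⟩ : ℂ)) M0 := by
    intro f g hf hg
    have : (fun X => (⟨f X, g X⟩ : ℂ)) = fun X => (f X : ℂ) + (g X : ℂ) * Complex.I := by
      funext X
      exact Complex.mk_eq_add_mul_I _ _
    rw [this]
    exact (Complex.continuous_ofReal.comp_continuousOn hf).add
      ((Complex.continuous_ofReal.comp_continuousOn hg).mul continuousOn_const)
  unfold Fmap
  refine ContinuousOn.prodMk ?_ (ContinuousOn.prodMk ?_ ?_)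
  · refine hmk _ _ (hu _ (by fun_prop)).continuousOn ?_
    exact (hs (fun X => 2 * X 3 / 5) (by fun_prop) (fun X hX => (R_pos hX).1)).mul c0.continuousOn
  · refine hmk _ _ (hu _ (by fun_prop)).continuousOn ?_
    exact (hs (fun X => -(2 * X 3 / 5)) (by fun_prop)
      (fun X hX => (R_pos hX).2)).mul c1.continuousOn
  · exact (continuous_tau.comp c2).continuousOn

theorem exists_tau {t : ℝ} (ht : t ^ 2 ≤ 10 / 3) : ∃ z : ℝ, |z| ≤ 2 ∧ tau z = t := by
  have hivt : ∀ s : ℝ, 0 ≤ s → s ^ 2 ≤ 10 / 3 → ∃ a : ℝ, 0 ≤ a ∧ a ≤ 1 ∧ √(hh a) = s := by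
    intro s hs hs2
    have h1 : hh 1 = 10 / 3 := by unfold hh Q; norm_num
    have := intermediate_value_Icc (zero_le_one' ℝ) continuous_hh.continuousOn
    have hmem : s ^ 2 ∈ Set.Icc (hh 0) (hh 1) := by
      rw [hh_zero, h1]; exact ⟨by positivity, hs2⟩
    obtain ⟨a, ⟨ha0, ha1⟩, ha⟩ := this hmem
    exact ⟨a, ha0, ha1, by rw [ha, Real.sqrt_sq hs]⟩
  rcases le_total 0 t with h | h
  · obtain ⟨a, ha0, ha1, ha⟩ := hivt t h ht
    refine ⟨2 * a, ?_, ?_⟩
    · rw [abs_of_nonneg (by linarith)]; linarith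
    · rw [tau_of_nonneg (by linarith), show 2 * a / 2 = a by ring, ha]
  · obtain ⟨a, ha0, ha1, ha⟩ := hivt (-t) (by linarith) (by rw [neg_sq]; exact ht)
    refine ⟨-(2 * a), ?_, ?_⟩
    · rw [abs_neg, abs_of_nonneg (by linarith)]; linarith
    · rw [tau_of_nonpos (by linarith), show -(-(2 * a)) / 2 = a by ring, ha, neg_neg]

theorem Fmap_surj : Set.SurjOn Fmap M0 GenusTwo := by
  rintro ⟨p, q, t⟩ ⟨hp, hq, ht⟩
  have hp' : p.re ^ 2 + p.im ^ 2 = 1 := by
    have h : ‖p‖ = 1 := hp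
    have := Complex.sq_norm p
    rw [h, Complex.normSq_apply] at this
    nlinarith
  have hq' : q.re ^ 2 + q.im ^ 2 = 1 := by
    have h : ‖q‖ = 1 := hq
    have := Complex.sq_norm q
    rw [h, Complex.normSq_apply] at this
    nlinarith
  have ht' : t ^ 2 = 4 / 3 - p.re - q.re := ht
  have hpr : -1 ≤ p.re ∧ p.re ≤ 1 := by constructor <;> nlinarith [sq_nonneg p.im]
  have hqr : -1 ≤ q.re ∧ q.re ≤ 1 := by constructor <;> nlinarith [sq_nonneg q.im]
  obtain ⟨z, hz, hzt⟩ := exists_tau (t := t) (by linarith)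
  set a := |z| / 2 with ha
  have ha0 : 0 ≤ a := by positivity
  have ha1 : a ≤ 1 := by linarith
  have hQ := Q_pos a
  set m := (p.re - q.re) * Q a / 20 with hm
  have hsum : p.re + q.re = 2 * (4 - 5 * a - 2 * a ^ 2) / Q a := by
    have h1 := tau_sq z
    rw [hzt, ht', hh_eq] at h1
    linarith
  have hsum' : (p.re + q.re) * Q a = 2 * (4 - 5 * a - 2 * a ^ 2) := by
    rw [hsum]; field_simp
  have hup : uu a m = p.re := by
    unfold uu
    rw [div_eq_iff hQ.ne', hm]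
    linear_combination -(1 / 2) * hsum'
  have huq : uu a (-m) = q.re := by
    unfold uu
    rw [div_eq_iff hQ.ne', hm]
    linear_combination -(1 / 2) * hsum'
  have hA : 1 + 2 * a ^ 2 - 5 * m = Q a * (1 - p.re) / 2 := by
    rw [hm]; unfold Q at *; linear_combination (1 / 4) * hsum'
  have hA' : 1 + 2 * a ^ 2 + 5 * m = Q a * (1 - q.re) / 2 := by
    rw [hm]; unfold Q at *; linear_combination (1 / 4) * hsum'
  have hL : 1 - a + m = Q a * (1 + p.re) / 10 := by
    rw [hm]; unfold Q at *; linear_combination (-1 / 20) * hsum'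
  have hL' : 1 - a - m = Q a * (1 + q.re) / 10 := by
    rw [hm]; unfold Q at *; linear_combination (-1 / 20) * hsum'
  have pA : 0 ≤ 1 + 2 * a ^ 2 - 5 * m := by
    rw [hA]; have : 0 ≤ 1 - p.re := by linarith
    positivity
  have pA' : 0 ≤ 1 + 2 * a ^ 2 + 5 * m := by
    rw [hA']; have : 0 ≤ 1 - q.re := by linarith
    positivity
  have pL : 0 ≤ 1 - a + m := by
    rw [hL]; have : 0 ≤ 1 + p.re := by linarith
    positivity
  have pL' : 0 ≤ 1 - a - m := by
    rw [hL']; have : 0 ≤ 1 + q.re := by linarith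
    positivity
  have hR : 0 < 1 + a + m := by nlinarith
  have hR' : 0 < 1 + a + -m := by nlinarith
  have sR : 0 < √(5 * (1 + a + m)) := Real.sqrt_pos.2 (by positivity)
  have sR' : 0 < √(5 * (1 + a + -m)) := Real.sqrt_pos.2 (by positivity)
  have hs1 : sc a m ≠ 0 := by unfold sc; positivity
  have hs2 : sc a (-m) ≠ 0 := by unfold sc; positivity
  let X : E4 := !₂[p.im / sc a m, q.im / sc a (-m), z, 5 * m / 2]
  have X0 : X 0 = p.im / sc a m := rfl
  have X1 : X 1 = q.im / sc a (-m) := rfl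
  have X2 : X 2 = z := rfl
  have X3 : X 3 = 5 * m / 2 := rfl
  have hm' : 2 * (5 * m / 2) / 5 = m := by ring
  have hz2 : z ^ 2 = 4 * a ^ 2 := by rw [ha, div_pow, sq_abs]; ring
  have habsm : |5 * m / 2| = 5 / 2 * |m| := by
    rw [abs_div, abs_mul, abs_two, abs_of_pos (by norm_num : (0 : ℝ) < 5)]; ring
  refine ⟨X, ⟨?_, ?_, ?_, ?_⟩, ?_⟩
  · rw [X0, X2, X3, al_eq, hm', ← ha]
    have hsq : sc a m ^ 2 = 20 / (Q a ^ 2 * (1 + a + m)) := by
      unfold sc
      rw [div_pow, mul_pow, Real.sq_sqrt (by positivity)]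
      field_simp
      norm_num
    have e : (1 + m) ^ 2 - a ^ 2 = (1 - a + m) * (1 + a + m) := by ring
    have him : p.im ^ 2 = (1 - p.re) * (1 + p.re) := by linear_combination hp'
    rw [div_pow, hsq, e, hA, hL, him]
    field_simp
    ring
  · rw [X1, X2, X3, al_eq', hm', ← ha]
    have hsq : sc a (-m) ^ 2 = 20 / (Q a ^ 2 * (1 + a + -m)) := by
      unfold sc
      rw [div_pow, mul_pow, Real.sq_sqrt (by positivity)]
      field_simp
      norm_num
    have e : (1 + -m) ^ 2 - a ^ 2 = (1 - a - m) * (1 + a + -m) := by ring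
    have e' : 1 + 2 * a ^ 2 - 5 * -m = 1 + 2 * a ^ 2 + 5 * m := by ring
    have him : q.im ^ 2 = (1 - q.re) * (1 + q.re) := by linear_combination hq'
    rw [div_pow, hsq, e, e', hA', hL', him]
    field_simp
    ring
  · rw [X2, X3, ← ha, habsm]
    have : |m| ≤ 1 - a := abs_le.2 ⟨by linarith, by linarith⟩
    linarith
  · rw [X2, X3, habsm, hz2]
    have : |m| ≤ (1 + 2 * a ^ 2) / 5 := abs_le.2 ⟨by linarith, by linarith⟩
    linarith
  · unfold Fmap
    rw [X0, X1, X2, X3, hm', ← ha, hup, huq, hzt, mul_div_cancel₀ _ hs1, mul_div_cancel₀ _ hs2]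

/-- The surface is homeomorphic to the closed orientable surface of genus two. -/
theorem homeo_M0 : Nonempty (M0 ≃ₜ GenusTwo) := by
  haveI : CompactSpace M0 := isCompact_iff_compactSpace.1 isCompact_M0
  have hb : Set.BijOn Fmap M0 GenusTwo := ⟨fun X hX => Fmap_mem hX, Fmap_inj, Fmap_surj⟩
  let e : M0 ≃ GenusTwo := hb.equiv Fmap
  have he : Continuous e := by
    have := Fmap_continuousOn.mapsToRestrict hb.mapsTo
    exact this
  exact ⟨he.homeoOfEquivCompactToT2⟩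

end Pool.Agent.H97.NegCurv
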