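import Pool.Agent.H97.NegCurv.Diff

/-!
# Linear algebra for the Gauss equation of a level set in four-space
-/

open scoped RealInnerProductSpace

noncomputable section

namespace Pool.Agent.H97.NegCurv

theorem exists_coords {a b p q : E4} (hap : (⟪a, p⟫ : ℝ) = 0) (haq : (⟪a, q⟫ : ℝ) = 0)
    (hbp : (⟪b, p⟫ : ℝ) = 0) (hbq : (⟪b, q⟫ : ℝ) = 0)
    (hW : (⟪a, a⟫ * ⟪b, b⟫ - ⟪a, b⟫ ^ 2 : ℝ) ≠ 0) (hD : (⟪p, p⟫ * ⟪q, q⟫ - ⟪p, q⟫ ^ 2 : ℝ) ≠ 0)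
    (r : E4) : ∃ c0 c1 c2 c3 : ℝ, r = c0 • a + c1 • b + c2 • p + c3 • q := by
  have hli : LinearIndependent ℝ ![a, b, p, q] := by
    rw [Fintype.linearIndependent_iff]
    intro c hc
    rw [Fin.sum_univ_four] at hc
    simp only [Matrix.cons_val_zero, Matrix.cons_val_one, Matrix.cons_val] at hc
    have ha := congrArg (fun v => (⟪a, v⟫ : ℝ)) hc
    have hb := congrArg (fun v => (⟪b, v⟫ : ℝ)) hc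
    have hp := congrArg (fun v => (⟪p, v⟫ : ℝ)) hc
    have hq := congrArg (fun v => (⟪q, v⟫ : ℝ)) hc
    simp only [inner_add_right, inner_smul_right, inner_zero_right, hap, haq, hbp, hbq,
      real_inner_comm a p, real_inner_comm a q, real_inner_comm b p, real_inner_comm b q,
      mul_zero, add_zero, zero_add] at ha hb hp hq
    rw [real_inner_comm a b] at hb
    rw [real_inner_comm p q] at hq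
    have h0 : c 0 = 0 := by
      have : (⟪a, a⟫ * ⟪b, b⟫ - ⟪a, b⟫ ^ 2 : ℝ) * c 0 = 0 := by
        linear_combination (⟪b, b⟫ : ℝ) * ha - (⟪a, b⟫ : ℝ) * hb
      exact (mul_eq_zero.1 this).resolve_left hW
    have h1 : c 1 = 0 := by
      have : (⟪a, a⟫ * ⟪b, b⟫ - ⟪a, b⟫ ^ 2 : ℝ) * c 1 = 0 := by
        linear_combination (⟪a, a⟫ : ℝ) * hb - (⟪a, b⟫ : ℝ) * ha
      exact (mul_eq_zero.1 this).resolve_left hW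
    have h2 : c 2 = 0 := by
      have : (⟪p, p⟫ * ⟪q, q⟫ - ⟪p, q⟫ ^ 2 : ℝ) * c 2 = 0 := by
        linear_combination (⟪q, q⟫ : ℝ) * hp - (⟪p, q⟫ : ℝ) * hq
      exact (mul_eq_zero.1 this).resolve_left hD
    have h3 : c 3 = 0 := by
      have : (⟪p, p⟫ * ⟪q, q⟫ - ⟪p, q⟫ ^ 2 : ℝ) * c 3 = 0 := by
        linear_combination (⟪p, p⟫ : ℝ) * hq - (⟪p, q⟫ : ℝ) * hp
      exact (mul_eq_zero.1 this).resolve_left hD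
    intro i
    fin_cases i <;> assumption
  obtain ⟨B, hB⟩ : ∃ B : Module.Basis (Fin 4) ℝ E4, ∀ i, B i = ![a, b, p, q] i :=
    ⟨basisOfLinearIndependentOfCardEqFinrank hli (by simp), fun i => by simp⟩
  refine ⟨B.repr r 0, B.repr r 1, B.repr r 2, B.repr r 3, ?_⟩
  have h := B.sum_repr r
  rw [Fin.sum_univ_four, hB, hB, hB, hB] at h
  simp only [Matrix.cons_val_zero, Matrix.cons_val_one, Matrix.cons_val] at h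
  exact h.symm

theorem inner_decomp {a b p q : E4} (hap : (⟪a, p⟫ : ℝ) = 0) (haq : (⟪a, q⟫ : ℝ) = 0)
    (hbp : (⟪b, p⟫ : ℝ) = 0) (hbq : (⟪b, q⟫ : ℝ) = 0)
    (hW : (⟪a, a⟫ * ⟪b, b⟫ - ⟪a, b⟫ ^ 2 : ℝ) ≠ 0) (hD : (⟪p, p⟫ * ⟪q, q⟫ - ⟪p, q⟫ ^ 2 : ℝ) ≠ 0)
    (r s : E4) :
    (⟪a, a⟫ * ⟪b, b⟫ - ⟪a, b⟫ ^ 2 : ℝ) * (⟪p, p⟫ * ⟪q, q⟫ - ⟪p, q⟫ ^ 2) * ⟪r, s⟫ =
      (⟪p, p⟫ * ⟪q, q⟫ - ⟪p, q⟫ ^ 2 : ℝ) *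
        (⟪b, b⟫ * ⟪r, a⟫ * ⟪s, a⟫ + ⟪a, a⟫ * ⟪r, b⟫ * ⟪s, b⟫
          - ⟪a, b⟫ * (⟪r, a⟫ * ⟪s, b⟫ + ⟪r, b⟫ * ⟪s, a⟫))
      + (⟪a, a⟫ * ⟪b, b⟫ - ⟪a, b⟫ ^ 2 : ℝ) *
        (⟪q, q⟫ * ⟪r, p⟫ * ⟪s, p⟫ + ⟪p, p⟫ * ⟪r, q⟫ * ⟪s, q⟫
          - ⟪p, q⟫ * (⟪r, p⟫ * ⟪s, q⟫ + ⟪r, q⟫ * ⟪s, p⟫)) := by
  obtain ⟨c0, c1, c2, c3, rfl⟩ := exists_coords hap haq hbp hbq hW hD r
  obtain ⟨d0, d1, d2, d3, rfl⟩ := exists_coords hap haq hbp hbq hW hD s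
  simp only [inner_add_right, inner_add_left, inner_smul_right, real_inner_smul_left,
    hap, haq, hbp, hbq,
    real_inner_comm a p, real_inner_comm a q, real_inner_comm b p, real_inner_comm b q,
    real_inner_comm a b, real_inner_comm p q,
    mul_zero, add_zero, zero_add]
  ring

/-- The Gaussian curvature of a level set: sign criterion. `hp_jk = ⟪φ_jk, p⟫` etc. -/
theorem gaussCurv_neg_of {U : Set (ℝ × ℝ)} (hU : IsOpen U) {φ : ℝ × ℝ → E4} (hφ : SmoothOn U φ)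
    {x : ℝ × ℝ} (hx : x ∈ U) {p q : E4}
    (hap : (⟪du φ x, p⟫ : ℝ) = 0) (haq : (⟪du φ x, q⟫ : ℝ) = 0)
    (hbp : (⟪dv φ x, p⟫ : ℝ) = 0) (hbq : (⟪dv φ x, q⟫ : ℝ) = 0)
    (hW : 0 < (⟪du φ x, du φ x⟫ * ⟪dv φ x, dv φ x⟫ - ⟪du φ x, dv φ x⟫ ^ 2 : ℝ))
    (hD : 0 < (⟪p, p⟫ * ⟪q, q⟫ - ⟪p, q⟫ ^ 2 : ℝ))
    (hneg : (⟪q, q⟫ : ℝ) * (⟪du (du φ) x, p⟫ * ⟪dv (dv φ) x, p⟫ - ⟪du (dv φ) x, p⟫ ^ 2)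
      + ⟪p, p⟫ * (⟪du (du φ) x, q⟫ * ⟪dv (dv φ) x, q⟫ - ⟪du (dv φ) x, q⟫ ^ 2)
      - ⟪p, q⟫ * (⟪du (du φ) x, p⟫ * ⟪dv (dv φ) x, q⟫ + ⟪du (du φ) x, q⟫ * ⟪dv (dv φ) x, p⟫
        - 2 * (⟪du (dv φ) x, p⟫ * ⟪du (dv φ) x, q⟫)) < 0) :
    gaussCurv φ x < 0 := by
  rw [gaussCurv_eq hU hφ hx rfl rfl rfl rfl rfl]
  set a := du φ x
  set b := dv φ x
  set uu := du (du φ) x
  set uv := du (dv φ) x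
  set vv := dv (dv φ) x
  have h1 := inner_decomp hap haq hbp hbq hW.ne' hD.ne' uu vv
  have h2 := inner_decomp hap haq hbp hbq hW.ne' hD.ne' uv uv
  apply div_neg_of_neg_of_pos _ (by positivity)
  refine neg_of_mul_neg_left (b := (⟪p, p⟫ * ⟪q, q⟫ - ⟪p, q⟫ ^ 2 : ℝ)) ?_ hD.le
  have key : ((⟪uu, vv⟫ - ⟪uv, uv⟫ : ℝ) * (⟪a, a⟫ * ⟪b, b⟫ - ⟪a, b⟫ ^ 2)
        - (⟪b, b⟫ * ⟪uu, a⟫ * ⟪vv, a⟫ + ⟪a, a⟫ * ⟪uu, b⟫ * ⟪vv, b⟫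
            - ⟪a, b⟫ * (⟪uu, a⟫ * ⟪vv, b⟫ + ⟪uu, b⟫ * ⟪vv, a⟫))
        + (⟪b, b⟫ * ⟪uv, a⟫ ^ 2 + ⟪a, a⟫ * ⟪uv, b⟫ ^ 2
            - 2 * ⟪a, b⟫ * (⟪uv, a⟫ * ⟪uv, b⟫))) * (⟪p, p⟫ * ⟪q, q⟫ - ⟪p, q⟫ ^ 2 : ℝ)
      = (⟪a, a⟫ * ⟪b, b⟫ - ⟪a, b⟫ ^ 2 : ℝ) *
        ((⟪q, q⟫ : ℝ) * (⟪uu, p⟫ * ⟪vv, p⟫ - ⟪uv, p⟫ ^ 2)
      + ⟪p, p⟫ * (⟪uu, q⟫ * ⟪vv, q⟫ - ⟪uv, q⟫ ^ 2)
      - ⟪p, q⟫ * (⟪uu, p⟫ * ⟪vv, q⟫ + ⟪uu, q⟫ * ⟪vv, p⟫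
        - 2 * (⟪uv, p⟫ * ⟪uv, q⟫))) := by
    linear_combination h1 - h2
  rw [key]
  exact mul_neg_of_pos_of_neg hW hneg

end Pool.Agent.H97.NegCurv
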