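import Pool.Agent.H97.NegCurv.Curv

/-!
# Local parametrizations of a regular level set
-/

open scoped ContDiff RealInnerProductSpace Topology

noncomputable section

namespace Pool.Agent.H97.NegCurv

/-- A subset of `E4` that near `X₀` is the zero set of an analytic submersion to the plane has a
smooth regular local parametrization around `X₀`. -/
theorem exists_localParam {M : Set E4} {P : E4 → ℝ × ℝ} (hP : ContDiff ℝ ω P) {X₀ : E4}
    (hP0 : P X₀ = 0) {P' : E4 →L[ℝ] ℝ × ℝ} (hP' : HasFDerivAt P P' X₀)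
    (hsurj : Function.Surjective P') {V : Set E4} (hV : IsOpen V) (hXV : X₀ ∈ V)
    (hMV : ∀ X ∈ V, X ∈ M ↔ P X = 0) :
    ∃ (U : Set (ℝ × ℝ)) (φ : ℝ × ℝ → E4), IsLocalParam M U φ ∧ X₀ ∈ φ '' U := by
  let T : Submodule ℝ E4 := LinearMap.ker (P' : E4 →ₗ[ℝ] ℝ × ℝ)
  have hT : Module.finrank ℝ T = Module.finrank ℝ (ℝ × ℝ) := by
    have h1 := LinearMap.finrank_range_add_finrank_ker (P' : E4 →ₗ[ℝ] ℝ × ℝ)
    have h2 : LinearMap.range (P' : E4 →ₗ[ℝ] ℝ × ℝ) = ⊤ := LinearMap.range_eq_top.2 hsurj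
    rw [h2, finrank_top] at h1
    have h3 : Module.finrank ℝ (ℝ × ℝ) = 2 := by simp
    have h4 : Module.finrank ℝ E4 = 4 := by simp
    rw [h3, h4] at h1
    rw [h3]
    change Module.finrank ℝ (LinearMap.ker (P' : E4 →ₗ[ℝ] ℝ × ℝ)) = 2
    omega
  let L : T ≃L[ℝ] (ℝ × ℝ) := ContinuousLinearEquiv.ofFinrankEq hT
  let ℓ : E4 →L[ℝ] ℝ × ℝ := (L : T →L[ℝ] ℝ × ℝ) ∘L T.orthogonalProjectionOnto
  let Θ : E4 → (ℝ × ℝ) × (ℝ × ℝ) := fun X => (P X, ℓ X)
  have hΘ : ContDiff ℝ ω Θ := hP.prodMk ℓ.contDiff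
  have hΘ' : HasFDerivAt Θ (P'.prod ℓ) X₀ := hP'.prodMk ℓ.hasFDerivAt
  have hinj : Function.Injective ((P'.prod ℓ : E4 →L[ℝ] (ℝ × ℝ) × (ℝ × ℝ)) :
      E4 →ₗ[ℝ] (ℝ × ℝ) × (ℝ × ℝ)) := by
    rw [← LinearMap.ker_eq_bot, LinearMap.ker_eq_bot']
    intro v hv
    have hv1 : P' v = 0 := congrArg Prod.fst hv
    have hv2 : ℓ v = 0 := congrArg Prod.snd hv
    have hvT : v ∈ T := hv1
    have hv3 : T.orthogonalProjectionOnto v = 0 := by
      have : L (T.orthogonalProjectionOnto v) = 0 := hv2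
      exact (map_eq_zero_iff L L.injective).1 this
    have hv4 := Submodule.orthogonalProjectionOnto_mem_subspace_eq_self (K := T) ⟨v, hvT⟩
    rw [hv3] at hv4
    exact (congrArg Subtype.val hv4).symm
  let Λ : E4 ≃L[ℝ] (ℝ × ℝ) × (ℝ × ℝ) :=
    (LinearMap.linearEquivOfInjective _ hinj (by simp)).toContinuousLinearEquiv
  have hΛ : (Λ : E4 →L[ℝ] (ℝ × ℝ) × (ℝ × ℝ)) = P'.prod ℓ := by
    ext v : 1
    rfl
  have hΘ'' : HasFDerivAt Θ (Λ : E4 →L[ℝ] (ℝ × ℝ) × (ℝ × ℝ)) X₀ := by rw [hΛ]; exact hΘ'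
  let e : OpenPartialHomeomorph E4 ((ℝ × ℝ) × (ℝ × ℝ)) :=
    (hΘ.contDiffAt (x := X₀)).toOpenPartialHomeomorph Θ hΘ'' (by simp)
  have he : (e : E4 → (ℝ × ℝ) × (ℝ × ℝ)) = Θ := rfl
  have hXs : X₀ ∈ e.source := ContDiffAt.mem_toOpenPartialHomeomorph_source _ _ _
  have hXt : Θ X₀ ∈ e.target := ContDiffAt.image_mem_toOpenPartialHomeomorph_target _ _ _
  have hsymm : e.symm (Θ X₀) = X₀ := e.left_inv hXs
  have han : AnalyticAt ℝ e.symm (Θ X₀) := by
    apply ContDiffAt.analyticAt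
    refine e.contDiffAt_symm (f₀' := Λ) hXt ?_ ?_
    · rw [hsymm]; exact hΘ''
    · rw [hsymm]; exact hΘ.contDiffAt
  -- the good open set in the target
  let W : Set ((ℝ × ℝ) × (ℝ × ℝ)) := {y | AnalyticAt ℝ e.symm y} ∩ (e.target ∩ e.symm ⁻¹' V)
  have hW : IsOpen W := (isOpen_analyticAt ℝ e.symm).inter
    (e.symm.isOpen_inter_preimage hV)
  have hXW : Θ X₀ ∈ W := ⟨han, hXt, by rw [Set.mem_preimage, hsymm]; exact hXV⟩
  let U : Set (ℝ × ℝ) := {q | ((0 : ℝ × ℝ), q) ∈ W}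
  have hU : IsOpen U := hW.preimage (by fun_prop)
  let φ : ℝ × ℝ → E4 := fun q => e.symm ((0 : ℝ × ℝ), q)
  have hright : ∀ q ∈ U, Θ (φ q) = ((0 : ℝ × ℝ), q) := fun q hq => e.right_inv hq.2.1
  have hℓ : ∀ q ∈ U, ℓ (φ q) = q := fun q hq => congrArg Prod.snd (hright q hq)
  have hPφ : ∀ q ∈ U, P (φ q) = 0 := fun q hq => congrArg Prod.fst (hright q hq)
  have hφV : ∀ q ∈ U, φ q ∈ V := fun q hq => hq.2.2
  have hmaps : Set.MapsTo φ U M := fun q hq => (hMV _ (hφV q hq)).2 (hPφ q hq)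
  have hsm : ∀ q ∈ U, ContDiffAt ℝ ω φ q := by
    intro q hq
    have h1 : AnalyticAt ℝ e.symm ((0 : ℝ × ℝ), q) := hq.1
    have h2 : ContDiffAt ℝ ω (fun q : ℝ × ℝ => ((0 : ℝ × ℝ), q)) q := by fun_prop
    exact ContDiffAt.comp q h1.contDiffAt h2
  have hcont : ContinuousOn φ U := fun q hq => (hsm q hq).continuousAt.continuousWithinAt
  refine ⟨U, φ, ⟨hU, ?_, ?_, hmaps, ?_⟩, ?_⟩
  · intro q hq
    exact ((hsm q hq).of_le le_top).contDiffWithinAt
  · intro q hq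
    have hd : DifferentiableAt ℝ φ q := (hsm q hq).differentiableAt (by simp)
    have h1 : HasFDerivAt (fun x => ℓ (φ x)) (ℓ ∘L fderiv ℝ φ q) q :=
      ℓ.hasFDerivAt.comp q hd.hasFDerivAt
    have h2 : HasFDerivAt (fun x => ℓ (φ x)) (ContinuousLinearMap.id ℝ (ℝ × ℝ)) q := by
      refine (hasFDerivAt_id q).congr_of_eventuallyEq ?_
      filter_upwards [hU.mem_nhds hq] with x hx using hℓ x hx
    have h3 := h1.unique h2
    intro v w hvw
    have := DFunLike.congr_fun h3 v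
    have h4 := DFunLike.congr_fun h3 w
    simp only [ContinuousLinearMap.comp_apply, ContinuousLinearMap.id_apply] at this h4
    rw [← this, ← h4, hvw]
  · have hc : Continuous (Set.MapsTo.restrict φ U M hmaps) := hcont.mapsToRestrict hmaps
    refine ⟨?_, ?_⟩
    · refine Topology.IsEmbedding.of_comp (g := fun X : M => ℓ X) hc
        (ℓ.continuous.comp continuous_subtype_val) ?_
      have : (fun X : M => ℓ X) ∘ Set.MapsTo.restrict φ U M hmaps = Subtype.val := by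
        ext1 q
        exact hℓ q q.2
      rw [this]
      exact Topology.IsEmbedding.subtypeVal
    · have hr : Set.range (Set.MapsTo.restrict φ U M hmaps) =
          Subtype.val ⁻¹' (e.source ∩ e ⁻¹' W) := by
        ext ⟨X, hX⟩
        constructor
        · rintro ⟨q, hq⟩
          have hq' : φ q = X := congrArg Subtype.val hq
          have hqW : ((0 : ℝ × ℝ), (q : ℝ × ℝ)) ∈ W := q.2
          have hs : φ q ∈ e.source := e.map_target hqW.2.1
          rw [hq'] at hs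
          refine ⟨hs, ?_⟩
          change Θ X ∈ W
          rw [← hq', hright q q.2]
          exact hqW
        · rintro ⟨hs, hw⟩
          have hw' : Θ X ∈ W := hw
          have hXsymm : e.symm (Θ X) = X := e.left_inv hs
          have hXV' : X ∈ V := by
            have := hw'.2.2
            rwa [Set.mem_preimage, hXsymm] at this
          have hPX : P X = 0 := (hMV X hXV').1 hX
          have hΘX : Θ X = ((0 : ℝ × ℝ), ℓ X) := by
            change (P X, ℓ X) = _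
            rw [hPX]
          have hq : ℓ X ∈ U := by
            change ((0 : ℝ × ℝ), ℓ X) ∈ W
            rw [← hΘX]; exact hw'
          refine ⟨⟨ℓ X, hq⟩, ?_⟩
          apply Subtype.ext
          change e.symm ((0 : ℝ × ℝ), ℓ X) = X
          rw [← hΘX, hXsymm]
      rw [hr]
      exact (e.isOpen_inter_preimage hW).preimage continuous_subtype_val
  · refine ⟨ℓ X₀, ?_, ?_⟩
    · change ((0 : ℝ × ℝ), ℓ X₀) ∈ W
      have : Θ X₀ = ((0 : ℝ × ℝ), ℓ X₀) := by
        change (P X₀, ℓ X₀) = _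
        rw [hP0]
      rw [← this]; exact hXW
    · change e.symm ((0 : ℝ × ℝ), ℓ X₀) = X₀
      have : Θ X₀ = ((0 : ℝ × ℝ), ℓ X₀) := by
        change (P X₀, ℓ X₀) = _
        rw [hP0]
      rw [← this, hsymm]

end Pool.Agent.H97.NegCurv
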