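import Pool.Agent.H97.NegCurv.Param

/-!
# The surface is smooth and compact
-/

open scoped ContDiff RealInnerProductSpace Topology

noncomputable section

namespace Pool.Agent.H97.NegCurv

section
variable {E : Type*} [NormedAddCommGroup E] [NormedSpace ℝ E]

theorem hasFDerivAt_al {f g : E → ℝ} {f' g' : E →L[ℝ] ℝ} {x : E} (hf : HasFDerivAt f f' x)
    (hg : HasFDerivAt g g' x) :
    HasFDerivAt (fun x => al (f x) (g x))
      (alz (f x) (g x) • f' + alw (f x) (g x) • g') x := by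
  have hA := ((hf.pow 2).mul_const (1 / 2)).const_add 1 |>.sub (hg.const_mul 2)
  have hB := (((hg.const_mul (2 / 5)).const_add 1).pow 2).sub ((hf.pow 2).mul_const (1 / 4))
  have h := hA.mul hB
  have e1 : (fun x => al (f x) (g x)) = fun x =>
      (1 + f x ^ 2 * (1 / 2) - 2 * g x) * ((1 + 2 / 5 * g x) ^ 2 - f x ^ 2 * (1 / 4)) := by
    ext x; unfold al; ring
  rw [e1]
  refine HasFDerivAt.congr_fderiv h ?_
  ext v
  simp [alz, alw]
  ring

end

/-- coordinate projections -/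
def co (i : Fin 4) : E4 →L[ℝ] ℝ := (EuclideanSpace.proj i : EuclideanSpace ℝ (Fin 4) →L[ℝ] ℝ)

theorem co_apply (i : Fin 4) (X : E4) : co i X = X i := rfl

/-- the defining map -/
def Pmap (X : E4) : ℝ × ℝ := (X 0 ^ 2 - al (X 2) (X 3), X 1 ^ 2 - al (X 2) (-X 3))

theorem contDiff_Pmap : ContDiff ℝ ω Pmap := by
  have h : ∀ i : Fin 4, ContDiff ℝ ω (fun X : E4 => X i) := fun i => (co i).contDiff
  have h0 := h 0
  have h1 := h 1
  have h2 := h 2
  have h3 := h 3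
  unfold Pmap al
  fun_prop

theorem hasFDerivAt_Pmap (X : E4) :
    HasFDerivAt Pmap ((innerSL ℝ (grad1 X)).prod (innerSL ℝ (grad2 X))) X := by
  have h : ∀ i : Fin 4, HasFDerivAt (fun X : E4 => X i) (co i) X := fun i => (co i).hasFDerivAt
  have h1 := ((h 0).pow 2).sub (hasFDerivAt_al (h 2) (h 3))
  have h2 := ((h 1).pow 2).sub (hasFDerivAt_al (h 2) (h 3).neg)
  refine HasFDerivAt.congr_fderiv (h1.prodMk h2) ?_
  apply ContinuousLinearMap.ext
  intro v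
  have g1 : (⟪grad1 X, v⟫ : ℝ) =
      2 * X 0 * v 0 - alz (X 2) (X 3) * v 2 - alw (X 2) (X 3) * v 3 := by
    rw [real_inner_comm]; unfold grad1; rw [inner_mk]; ring
  have g2 : (⟪grad2 X, v⟫ : ℝ) =
      2 * X 1 * v 1 - alz (X 2) (-X 3) * v 2 + alw (X 2) (-X 3) * v 3 := by
    rw [real_inner_comm]; unfold grad2; rw [inner_mk]; ring
  simp only [ContinuousLinearMap.prod_apply, innerSL_apply_apply, g1, g2]
  ext
  · simp [co_apply]
    ring
  · simp [co_apply]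
    ring

theorem surj_of_gram {p q : E4} (hD : (⟪p, p⟫ * ⟪q, q⟫ - ⟪p, q⟫ ^ 2 : ℝ) ≠ 0) :
    Function.Surjective ((innerSL ℝ p).prod (innerSL ℝ q)) := by
  rintro ⟨s, t⟩
  set D : ℝ := ⟪p, p⟫ * ⟪q, q⟫ - ⟪p, q⟫ ^ 2 with hDdef
  refine ⟨((⟪q, q⟫ * s - ⟪p, q⟫ * t) / D) • p + ((⟪p, p⟫ * t - ⟪p, q⟫ * s) / D) • q, ?_⟩
  simp only [ContinuousLinearMap.prod_apply, innerSL_apply_apply, inner_add_right,
    inner_smul_right, real_inner_comm p q]
  ext
  · simp only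
    field_simp
    rw [hDdef]; ring
  · simp only
    field_simp
    rw [hDdef]; ring

/-- elementary inequalities on the surface -/
theorem mem_bounds {X : E4} (hX : X ∈ M0) :
    |X 2| ≤ 2 ∧ |X 3| ≤ 3 / 2 ∧ 0 ≤ 1 + X 2 ^ 2 / 2 - 2 * X 3 ∧ 0 ≤ 1 + X 2 ^ 2 / 2 + 2 * X 3 ∧
      0 ≤ 1 - |X 2| / 2 + 2 * X 3 / 5 ∧ 0 ≤ 1 - |X 2| / 2 - 2 * X 3 / 5 := by
  obtain ⟨-, -, h2, h3⟩ := hX
  have a2 := abs_nonneg (X 2)
  have a3 := abs_nonneg (X 3)
  have b3 := abs_le.1 (le_refl |X 3|)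
  have hz : |X 2| ≤ 2 := by linarith
  have hz2 : X 2 ^ 2 ≤ 4 := by
    rw [← sq_abs]; nlinarith
  refine ⟨hz, by linarith, by linarith [b3.2], by linarith [b3.1], ?_, ?_⟩
  · linarith [b3.1]
  · linarith [b3.2]

theorem exists_nhds {X₀ : E4} (h₀ : X₀ ∈ M0) :
    ∃ V : Set E4, IsOpen V ∧ X₀ ∈ V ∧ ∀ X ∈ V, X ∈ M0 ↔ Pmap X = 0 := by
  have hc : ∀ i : Fin 4, Continuous (fun X : E4 => X i) := fun i => (co i).continuous
  have c2 := hc 2
  have c3 := hc 3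
  -- one factor is positive
  have key : ∀ s : ℝ, |s| = |X₀ 3| → ∀ σ : E4 → ℝ, Continuous σ → σ X₀ = s →
      ∃ V : Set E4, IsOpen V ∧ X₀ ∈ V ∧ ∀ X ∈ V, 0 ≤ al (X 2) (σ X) →
        0 ≤ 1 + X 2 ^ 2 / 2 - 2 * σ X ∧ 0 ≤ (1 + 2 * σ X / 5) ^ 2 - X 2 ^ 2 / 4 := by
    intro s hs σ hσ hσ0
    obtain ⟨hz, hw, -, -, -, -⟩ := mem_bounds h₀
    obtain ⟨-, -, h2, h3⟩ := h₀
    rw [← hs] at h2 h3 hw
    have a2 := abs_nonneg (X₀ 2)
    by_cases hA : 0 < 1 + X₀ 2 ^ 2 / 2 - 2 * s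
    · refine ⟨{X | 0 < 1 + X 2 ^ 2 / 2 - 2 * σ X}, ?_, ?_, ?_⟩
      · exact isOpen_lt continuous_const (by fun_prop)
      · simpa [hσ0] using hA
      · intro X hX hal
        have hX' : 0 < 1 + X 2 ^ 2 / 2 - 2 * σ X := hX
        refine ⟨hX'.le, ?_⟩
        unfold al at hal
        exact nonneg_of_mul_nonneg_right hal hX'
    · have hB : 0 < (1 + 2 * s / 5) ^ 2 - X₀ 2 ^ 2 / 4 := by
        push Not at hA
        have hs0 : 0 < s := by nlinarith [sq_nonneg (X₀ 2)]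
        rw [abs_of_pos hs0] at h2
        have : |X₀ 2| / 2 ≤ 1 - 2 * s / 5 := by linarith
        have h4 : X₀ 2 ^ 2 / 4 ≤ (1 - 2 * s / 5) ^ 2 := by
          have : (|X₀ 2| / 2) ^ 2 ≤ (1 - 2 * s / 5) ^ 2 := by
            apply pow_le_pow_left₀ (by positivity) this
          rw [div_pow, sq_abs] at this
          linarith
        nlinarith
      refine ⟨{X | 0 < (1 + 2 * σ X / 5) ^ 2 - X 2 ^ 2 / 4}, ?_, ?_, ?_⟩
      · exact isOpen_lt continuous_const (by fun_prop)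
      · simpa [hσ0] using hB
      · intro X hX hal
        have hX' : 0 < (1 + 2 * σ X / 5) ^ 2 - X 2 ^ 2 / 4 := hX
        refine ⟨?_, hX'.le⟩
        unfold al at hal
        exact nonneg_of_mul_nonneg_left hal hX'
  obtain ⟨V1, hV1, hX1, hm1⟩ := key (X₀ 3) rfl (fun X => X 3) c3 rfl
  obtain ⟨V2, hV2, hX2, hm2⟩ := key (-X₀ 3) (abs_neg _) (fun X => -X 3) c3.neg rfl
  refine ⟨V1 ∩ V2 ∩ {X | |X 3| < 5 / 2}, ?_, ?_, ?_⟩
  · exact (hV1.inter hV2).inter (isOpen_lt (by fun_prop) continuous_const)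
  · refine ⟨⟨hX1, hX2⟩, ?_⟩
    have := (mem_bounds h₀).2.1
    change |X₀ 3| < 5 / 2
    linarith
  · rintro X ⟨⟨h1, h2⟩, h3⟩
    have h3' : |X 3| < 5 / 2 := h3
    constructor
    · intro hX
      unfold Pmap
      rw [hX.1, hX.2.1]
      simp
    · intro hP
      have e1 : X 0 ^ 2 = al (X 2) (X 3) := by
        have := congrArg Prod.fst hP
        simp only [Pmap, Prod.fst_zero] at this
        linarith
      have e2 : X 1 ^ 2 = al (X 2) (-X 3) := by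
        have := congrArg Prod.snd hP
        simp only [Pmap, Prod.snd_zero] at this
        linarith
      obtain ⟨A1, B1⟩ := hm1 X h1 (by rw [← e1]; positivity)
      obtain ⟨A2, B2⟩ := hm2 X h2 (by rw [← e2]; positivity)
      rw [abs_lt] at h3'
      have r1 : |X 2| / 2 ≤ 1 + 2 * X 3 / 5 := by
        apply abs_le_of_sq_le_sq' _ _ |>.2
        · rw [div_pow, sq_abs]; linarith
        · linarith
      have r2 : |X 2| / 2 ≤ 1 - 2 * X 3 / 5 := by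
        apply abs_le_of_sq_le_sq' _ _ |>.2
        · rw [div_pow, sq_abs]
          have : (1 + 2 * -X 3 / 5) ^ 2 = (1 - 2 * X 3 / 5) ^ 2 := by ring
          rw [this] at B2
          linarith
        · linarith
      refine ⟨e1, e2, ?_, ?_⟩
      · rcases abs_cases (X 3) with ⟨h, -⟩ | ⟨h, -⟩ <;> rw [h] <;> linarith
      · rcases abs_cases (X 3) with ⟨h, -⟩ | ⟨h, -⟩ <;> rw [h] <;> linarith

theorem isSmoothSurface_M0 : IsSmoothSurface M0 := by
  intro X₀ h₀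
  obtain ⟨V, hV, hXV, hMV⟩ := exists_nhds h₀
  exact exists_localParam contDiff_Pmap ((hMV X₀ hXV).1 h₀) (hasFDerivAt_Pmap X₀)
    (surj_of_gram (gram_pos' h₀).ne') hV hXV hMV

theorem isClosed_M0 : IsClosed M0 := by
  have hc : ∀ i : Fin 4, Continuous (fun X : E4 => X i) := fun i => (co i).continuous
  have c0 := hc 0
  have c1 := hc 1
  have c2 := hc 2
  have c3 := hc 3
  have h1 : IsClosed {X : E4 | X 0 ^ 2 = al (X 2) (X 3)} :=
    isClosed_eq (by fun_prop) (by unfold al; fun_prop)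
  have h2 : IsClosed {X : E4 | X 1 ^ 2 = al (X 2) (-X 3)} :=
    isClosed_eq (by fun_prop) (by unfold al; fun_prop)
  have h3 : IsClosed {X : E4 | |X 2| / 2 + 2 * |X 3| / 5 ≤ 1} :=
    isClosed_le (by fun_prop) (by fun_prop)
  have h4 : IsClosed {X : E4 | 2 * |X 3| ≤ 1 + X 2 ^ 2 / 2} :=
    isClosed_le (by fun_prop) (by fun_prop)
  exact h1.inter (h2.inter (h3.inter h4))

theorem al_le {X : E4} (hX : X ∈ M0) : al (X 2) (X 3) ≤ 24 ∧ al (X 2) (-X 3) ≤ 24 := by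
  obtain ⟨h2, h3, hA, hA', hL, hL'⟩ := mem_bounds hX
  have hz2 : X 2 ^ 2 ≤ 4 := by
    rw [← sq_abs]; nlinarith [abs_nonneg (X 2)]
  rw [abs_le] at h3
  have b1 : (1 + 2 * X 3 / 5) ^ 2 ≤ 4 := by nlinarith
  have b2 : (1 - 2 * X 3 / 5) ^ 2 ≤ 4 := by nlinarith
  have hz0 := sq_nonneg (X 2)
  constructor
  · unfold al
    have : (1 + X 2 ^ 2 / 2 - 2 * X 3) * ((1 + 2 * X 3 / 5) ^ 2 - X 2 ^ 2 / 4) ≤
        (1 + X 2 ^ 2 / 2 - 2 * X 3) * 4 :=
      mul_le_mul_of_nonneg_left (by linarith) hA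
    linarith
  · unfold al
    have e : (1 + 2 * -X 3 / 5) ^ 2 = (1 - 2 * X 3 / 5) ^ 2 := by ring
    rw [e]
    have : (1 + X 2 ^ 2 / 2 - 2 * -X 3) * ((1 - 2 * X 3 / 5) ^ 2 - X 2 ^ 2 / 4) ≤
        (1 + X 2 ^ 2 / 2 - 2 * -X 3) * 4 :=
      mul_le_mul_of_nonneg_left (by linarith) (by linarith)
    linarith

theorem isCompact_M0 : IsCompact M0 := by
  refine Metric.isCompact_of_isClosed_isBounded isClosed_M0 ?_
  refine (Metric.isBounded_closedBall (x := (0 : E4)) (r := 8)).subset ?_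
  intro X hX
  rw [mem_closedBall_zero_iff]
  obtain ⟨h2, h3, -⟩ := mem_bounds hX
  obtain ⟨a1, a2⟩ := al_le hX
  have h := EuclideanSpace.norm_sq_eq X
  rw [Fin.sum_univ_four] at h
  simp only [Real.norm_eq_abs, sq_abs] at h
  have h22 : X 2 ^ 2 ≤ 4 := by
    rw [← sq_abs]; nlinarith [abs_nonneg (X 2)]
  have h33 : X 3 ^ 2 ≤ 4 := by
    rw [← sq_abs]; nlinarith [abs_nonneg (X 3)]
  have : ‖X‖ ^ 2 ≤ 8 ^ 2 := by
    rw [h, hX.1, hX.2.1]; linarith
  exact abs_le_of_sq_le_sq' this (by norm_num) |>.2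

end Pool.Agent.H97.NegCurv
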